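import Pool.Agent.D0H73.QLO.Sys

set_option autoImplicit false
set_option linter.unusedSectionVars false

/-! The level sets on the classes. -/

namespace Pool.Agent.D0H73.QLO

open Finset Pool.Agent.R811.Cross

variable {ι κ : Type} [Fintype ι] [DecidableEq ι] [Fintype κ] [DecidableEq κ]

namespace Sys

variable (P : Sys ι κ)

theorem card_le_N (G : Finset (ι → Bool)) : (G.card : ℝ) ≤ P.N := by
  unfold N
  have := Finset.card_le_univ G
  have h : Fintype.card (ι → Bool) = 2 ^ Fintype.card ι := by simp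
  rw [h] at this
  exact_mod_cast this

theorem chain (θ : κ → (ι → Bool) → ℝ) (h1 : ∀ k x, θ k (flip (P.e k) x) = θ k x)
    (h2 : ∀ k x, 0 ≤ θ k x * P.L k x) (h3 : ∀ k x, P.L k x = 0 → θ k x = 0)
    (E : Finset (ι → Bool)) (hE : ∀ x, x ∉ E → ∀ k, θ k x = 0)
    (G : Finset (ι → Bool)) (y : ℤ) (hG : ∀ x ∈ G, P.F x = y) (a : ℝ) (ha : 0 ≤ a)
    (hGa : ∀ x ∈ G, a ≤ ∑ k, |θ k x|) (M : ℝ)
    (hM : ∑ k, ∑ x, (θ k x) ^ 2 + 1 / 4 * ∑ k, ∑ l, ∑ x, (θ k x - θ k (flip (P.e l) x)) ^ 2 ≤ M) :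
    ((G.card : ℝ) * a) ^ 2 ≤ 4 * (E.card * M) := by
  have m1 := main_ineq P.e P.F y θ h1 h2
    (fun k x h => h3 k x (by unfold L; rw [h]; norm_num))
  have m2 := second P.e P.inj θ h1
  set T : (ι → Bool) → ℝ := fun x => ∑ k, sr (x (P.e k)) * θ k x with hT
  have e1 : (G.card : ℝ) * a ≤ ∑ x, (if P.F x = y then ∑ k, |θ k x| else 0) := by
    calc (G.card : ℝ) * a = ∑ _x ∈ G, a := by rw [Finset.sum_const, nsmul_eq_mul]
      _ ≤ ∑ x ∈ G, (if P.F x = y then ∑ k, |θ k x| else 0) :=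
          Finset.sum_le_sum fun x hx => by rw [if_pos (hG x hx)]; exact hGa x hx
      _ ≤ _ := Finset.sum_le_sum_of_subset_of_nonneg (Finset.subset_univ _) (fun x _ _ => by
          split_ifs
          · exact Finset.sum_nonneg fun k _ => abs_nonneg _
          · exact le_refl _)
  have e2 : ∑ x, |T x| = ∑ x ∈ E, |T x| := by
    refine (Finset.sum_subset (Finset.subset_univ _) fun x _ hx => ?_).symm
    have : T x = 0 := Finset.sum_eq_zero fun k _ => by rw [hE x hx k, mul_zero]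
    rw [this, abs_zero]
  have e3 : (∑ x ∈ E, |T x|) ^ 2 ≤ E.card * M := by
    refine (sq_sum_le_card_mul_sum_sq).trans (mul_le_mul_of_nonneg_left ?_ (by positivity))
    calc ∑ x ∈ E, |T x| ^ 2 ≤ ∑ x, |T x| ^ 2 :=
          Finset.sum_le_sum_of_subset_of_nonneg (Finset.subset_univ _) (fun x _ _ => by positivity)
      _ = ∑ x, T x ^ 2 := Finset.sum_congr rfl fun x _ => sq_abs _
      _ ≤ _ := m2.trans hM
  have e4 : (G.card : ℝ) * a ≤ 2 * ∑ x ∈ E, |T x| := by rw [← e2]; exact e1.trans m1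
  calc ((G.card : ℝ) * a) ^ 2 ≤ (2 * ∑ x ∈ E, |T x|) ^ 2 := pow_le_pow_left₀ (by positivity) e4 2
    _ = 4 * (∑ x ∈ E, |T x|) ^ 2 := by ring
    _ ≤ _ := by linarith

/-- an integer which is not zero -/
theorem one_le_L {k : κ} {x : ι → Bool} (h : P.L k x ≠ 0) : 1 ≤ |P.L k x| := by
  unfold L at h ⊢
  have h1 : D (P.e k) P.F x ≠ 0 := by
    intro h0; apply h; rw [h0]; norm_num
  have h2 : 1 ≤ |D (P.e k) P.F x| := Int.one_le_abs h1
  exact_mod_cast h2

theorem cls (b : ℕ) {K : ℝ} (hK : 0 < K) (hK2 : K ≤ P.cc) (y : ℤ) (G : Finset (ι → Bool))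
    (hG : ∀ x ∈ G, P.F x = y)
    (hGK : ∀ x ∈ G, K ≤ ((univ.filter (fun k => P.rr b k / 2 < |P.L k x| ∧
      |P.L k x| ≤ P.rr b k)).card : ℝ)) :
    (G.card : ℝ) ^ 2 * K ^ 5 ≤ 40128 * P.B ^ 4 * P.cc ^ 4 * P.N ^ 2 := by
  have hcc : 0 < P.cc := lt_of_lt_of_le hK hK2
  have hB := P.hB
  have hB0 := P.B_pos
  have hN := P.N_pos
  have h2b : (1 : ℝ) ≤ 2 ^ b := one_le_pow₀ (by norm_num)
  set E : Finset (ι → Bool) := univ.filter (fun x => K / 2 ≤
    (((P.Ib b).filter (fun l => |P.L l x| ≤ 2 * P.rr b l + 3 * P.B)).card : ℝ)) with hE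
  -- the size of E
  have cE : (E.card : ℝ) * (K / 2) ≤ P.cc * ((12 * P.B + 10) * P.N / 2 ^ b) := by
    calc (E.card : ℝ) * (K / 2) = ∑ _x ∈ E, K / 2 := by rw [Finset.sum_const, nsmul_eq_mul]
      _ ≤ ∑ x ∈ E, ∑ l ∈ P.Ib b, (if |P.L l x| ≤ 2 * P.rr b l + 3 * P.B then (1 : ℝ) else 0) := by
          refine Finset.sum_le_sum fun x hx => ?_
          have := (Finset.mem_filter.1 hx).2
          rw [Finset.sum_boole]
          exact this
      _ ≤ ∑ x, ∑ l ∈ P.Ib b, (if |P.L l x| ≤ 2 * P.rr b l + 3 * P.B then (1 : ℝ) else 0) :=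
          Finset.sum_le_sum_of_subset_of_nonneg (Finset.subset_univ _) (fun x _ _ =>
            Finset.sum_nonneg fun l _ => by split_ifs <;> norm_num)
      _ = ∑ l ∈ P.Ib b, ((univ.filter (fun x => |P.L l x| ≤ 2 * P.rr b l + 3 * P.B)).card : ℝ) := by
          rw [Finset.sum_comm]
          exact Finset.sum_congr rfl fun l _ => Finset.sum_boole _ _
      _ ≤ ∑ _l ∈ P.Ib b, (12 * P.B + 10) * P.N / 2 ^ b := by
          refine Finset.sum_le_sum fun l hl => ?_
          refine (P.cnt b (P.mem_Ib.1 hl) (3 * P.B) (by positivity)).trans (le_of_eq ?_)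
          ring
      _ = ((P.Ib b).card : ℝ) * ((12 * P.B + 10) * P.N / 2 ^ b) := by
          rw [Finset.sum_const, nsmul_eq_mul]
      _ ≤ _ := mul_le_mul_of_nonneg_right (P.card_Ib b) (by positivity)
  -- support
  have hE0 : ∀ x, x ∉ E → ∀ k, P.th b K k x = 0 := by
    intro x hx k
    have h1 : (((P.Ib b).filter (fun l => |P.L l x| ≤ 2 * P.rr b l + 3 * P.B)).card : ℝ) < K / 2 := by
      by_contra h
      exact hx (Finset.mem_filter.2 ⟨Finset.mem_univ _, not_lt.1 h⟩)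
    have h2 : P.Fi b k x ≤ (((P.Ib b).filter (fun l => |P.L l x| ≤ 2 * P.rr b l + 3 * P.B)).card : ℝ) := by
      unfold Fi
      rw [← Finset.sum_boole]
      exact Finset.sum_le_sum fun l _ => P.zt_le b k l x
    unfold th chi
    rw [c01_eq_zero, mul_zero]
    · simp
    · have h3 : 2 * P.Fi b k x / K ≤ 1 := by
        rw [div_le_one hK]; linarith
      linarith
  -- lower bound on G
  have hGa : ∀ x ∈ G, K / 2 ≤ ∑ k, |P.th b K k x| := by
    intro x hx
    set A : Finset κ := univ.filter (fun k => P.rr b k / 2 < |P.L k x| ∧ |P.L k x| ≤ P.rr b k) with hA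
    have hKA : K ≤ (A.card : ℝ) := hGK x hx
    have hAI : A ⊆ P.Ib b := by
      intro k hk
      have h := (Finset.mem_filter.1 hk).2
      have hr := P.rr_pos b k
      have h0 : P.L k x ≠ 0 := by
        intro h0
        rw [h0, abs_zero] at h
        linarith [h.1]
      exact P.mem_Ib.2 ((P.one_le_L h0).trans h.2)
    have hF : ∀ k, K ≤ P.Fi b k x := by
      intro k
      refine hKA.trans ?_
      unfold Fi
      calc (A.card : ℝ) = ∑ _l ∈ A, (1 : ℝ) := by rw [Finset.sum_const, nsmul_eq_mul, mul_one]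
        _ = ∑ l ∈ A, P.zt b k l x := Finset.sum_congr rfl fun l hl =>
            (P.zt_one (Finset.mem_filter.1 hl).2.2 k).symm
        _ ≤ _ := Finset.sum_le_sum_of_subset_of_nonneg hAI (fun l _ _ => c01_nonneg _)
    calc K / 2 ≤ (A.card : ℝ) * (1 / 2) := by linarith
      _ = ∑ _k ∈ A, (1 / 2 : ℝ) := by rw [Finset.sum_const, nsmul_eq_mul]
      _ ≤ ∑ k ∈ A, |P.th b K k x| := by
          refine Finset.sum_le_sum fun k hk => ?_
          have h := (Finset.mem_filter.1 hk).2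
          have hr := P.rr_pos b k
          unfold th
          rw [if_pos (hAI hk)]
          have hc : P.chi b K k x = 1 := by
            unfold chi
            apply c01_eq_one
            have : 2 ≤ 2 * P.Fi b k x / K := by
              rw [le_div_iff₀ hK]; linarith [hF k]
            linarith
          rw [hc, mul_one]
          apply psi_near
          · rw [abs_div, abs_of_pos hr, lt_div_iff₀ hr]; linarith [h.1]
          · rw [abs_div, abs_of_pos hr, div_le_one hr]; exact h.2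
      _ ≤ _ := Finset.sum_le_sum_of_subset_of_nonneg (Finset.subset_univ _) (fun k _ _ => abs_nonneg _)
  -- the second moment
  have hM1 : ∑ k, ∑ x, (P.th b K k x) ^ 2 ≤ P.cc * P.N := by
    calc ∑ k, ∑ x, (P.th b K k x) ^ 2 ≤ ∑ _k : κ, P.N := by
          refine Finset.sum_le_sum fun k _ => ?_
          calc ∑ x, (P.th b K k x) ^ 2 ≤ ∑ _x : ι → Bool, (1 : ℝ) := by
                refine Finset.sum_le_sum fun x _ => ?_
                have := pow_le_pow_left₀ (abs_nonneg _) (P.th_abs b K k x) 2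
                rwa [sq_abs, one_pow] at this
            _ = ((univ : Finset (ι → Bool)).card : ℝ) := by
                rw [Finset.sum_const, nsmul_eq_mul, mul_one]
            _ ≤ P.N := P.card_le_N _
      _ = P.cc * P.N := by rw [Finset.sum_const, nsmul_eq_mul]; rfl
  have hM2 : ∑ k, ∑ l, ∑ x, (P.th b K k x - P.th b K k (flip (P.e l) x)) ^ 2 ≤
      P.cc * ((4 * P.B + 10) * P.N / 2 ^ b * (8 * P.B ^ 2 * 4 ^ b * (1 + P.cc ^ 2 / K ^ 2))) := by
    calc ∑ k, ∑ l, ∑ x, (P.th b K k x - P.th b K k (flip (P.e l) x)) ^ 2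
        ≤ ∑ _k : κ, (4 * P.B + 10) * P.N / 2 ^ b * (8 * P.B ^ 2 * 4 ^ b * (1 + P.cc ^ 2 / K ^ 2)) := by
          refine Finset.sum_le_sum fun k _ => ?_
          rw [Finset.sum_comm]
          refine (Finset.sum_le_sum fun x _ => P.sumth b hK k x).trans ?_
          by_cases hk : 1 ≤ P.rr b k
          · simp only [hk, true_and]
            rw [← Finset.sum_filter, Finset.sum_const, nsmul_eq_mul]
            exact mul_le_mul_of_nonneg_right (P.cnt b hk P.B hB0.le) (by positivity)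
          · simp only [hk, false_and, if_false, Finset.sum_const_zero]
            positivity
      _ = _ := by rw [Finset.sum_const, nsmul_eq_mul]; rfl
  have key := P.chain (P.th b K) (P.th_self b K) (P.th_sign b K) (P.th_zero b K) E hE0 G y hG (K / 2)
    (by positivity) hGa _ (le_refl _)
  set M := ∑ k, ∑ x, (P.th b K k x) ^ 2 +
    1 / 4 * ∑ k, ∑ l, ∑ x, (P.th b K k x - P.th b K k (flip (P.e l) x)) ^ 2 with hMdef
  -- M ≤ 57 B^3 cc^3 / K^2 2^b N
  have hq : 1 ≤ P.cc ^ 2 / K ^ 2 := by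
    rw [le_div_iff₀ (by positivity), one_mul]
    exact pow_le_pow_left₀ hK.le hK2 2
  have h4b : (4 : ℝ) ^ b = 2 ^ b * 2 ^ b := by rw [← mul_pow]; norm_num
  have hM : M ≤ 57 * P.B ^ 3 * (P.cc * (P.cc ^ 2 / K ^ 2)) * 2 ^ b * P.N := by
    set q := P.cc ^ 2 / K ^ 2 with hqd
    have s1 : P.cc * P.N ≤ P.B ^ 3 * (P.cc * q) * 2 ^ b * P.N := by
      have t1 : 1 ≤ P.B ^ 3 := one_le_pow₀ hB
      have t2 : 1 ≤ P.B ^ 3 * q * 2 ^ b := by
        have : 1 ≤ P.B ^ 3 * q := one_le_mul_of_one_le_of_one_le t1 hq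
        exact one_le_mul_of_one_le_of_one_le this h2b
      calc P.cc * P.N = 1 * (P.cc * P.N) := by ring
        _ ≤ (P.B ^ 3 * q * 2 ^ b) * (P.cc * P.N) := mul_le_mul_of_nonneg_right t2 (by positivity)
        _ = _ := by ring
    have s2 : P.cc * ((4 * P.B + 10) * P.N / 2 ^ b * (8 * P.B ^ 2 * 4 ^ b * (1 + q))) ≤
        224 * P.B ^ 3 * (P.cc * q) * 2 ^ b * P.N := by
      rw [h4b]
      have t1 : P.cc * ((4 * P.B + 10) * P.N / 2 ^ b * (8 * P.B ^ 2 * (2 ^ b * 2 ^ b) * (1 + q))) =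
          (4 * P.B + 10) * (1 + q) * (P.cc * P.N * (8 * P.B ^ 2) * 2 ^ b) := by
        field_simp
      have t2 : (4 * P.B + 10) * (1 + q) ≤ (14 * P.B) * (2 * q) :=
        mul_le_mul (by linarith) (by linarith) (by linarith) (by linarith)
      rw [t1]
      calc (4 * P.B + 10) * (1 + q) * (P.cc * P.N * (8 * P.B ^ 2) * 2 ^ b)
          ≤ (14 * P.B) * (2 * q) * (P.cc * P.N * (8 * P.B ^ 2) * 2 ^ b) :=
            mul_le_mul_of_nonneg_right t2 (by positivity)
        _ = _ := by ring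
    have s3 : M ≤ P.cc * P.N + 1 / 4 * (P.cc * ((4 * P.B + 10) * P.N / 2 ^ b *
        (8 * P.B ^ 2 * 4 ^ b * (1 + q)))) := by
      rw [hMdef]; linarith
    nlinarith [s1, s2, s3]
  have hEc : (E.card : ℝ) ≤ 44 * P.B * (P.cc / K) * P.N / 2 ^ b := by
    have t1 : (12 * P.B + 10) ≤ 22 * P.B := by linarith
    have t2 : (E.card : ℝ) * (K / 2) ≤ P.cc * (22 * P.B * P.N / 2 ^ b) := by
      refine cE.trans (mul_le_mul_of_nonneg_left ?_ hcc.le)
      exact div_le_div_of_nonneg_right (mul_le_mul_of_nonneg_right t1 hN.le) (by positivity)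
    have t3 : (E.card : ℝ) = (E.card : ℝ) * (K / 2) * (2 / K) := by field_simp
    rw [t3]
    calc (E.card : ℝ) * (K / 2) * (2 / K) ≤ P.cc * (22 * P.B * P.N / 2 ^ b) * (2 / K) :=
          mul_le_mul_of_nonneg_right t2 (by positivity)
      _ = _ := by field_simp; ring
  have hM0 : 0 ≤ 57 * P.B ^ 3 * (P.cc * (P.cc ^ 2 / K ^ 2)) * 2 ^ b * P.N := by positivity
  have fin1 : ((G.card : ℝ) * (K / 2)) ^ 2 ≤ 4 * ((44 * P.B * (P.cc / K) * P.N / 2 ^ b) *
      (57 * P.B ^ 3 * (P.cc * (P.cc ^ 2 / K ^ 2)) * 2 ^ b * P.N)) := by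
    refine key.trans (mul_le_mul_of_nonneg_left ?_ (by norm_num))
    calc (E.card : ℝ) * M ≤ E.card * (57 * P.B ^ 3 * (P.cc * (P.cc ^ 2 / K ^ 2)) * 2 ^ b * P.N) :=
          mul_le_mul_of_nonneg_left hM (by positivity)
      _ ≤ _ := mul_le_mul_of_nonneg_right hEc hM0
  have fin2 : (44 * P.B * (P.cc / K) * P.N / 2 ^ b) *
      (57 * P.B ^ 3 * (P.cc * (P.cc ^ 2 / K ^ 2)) * 2 ^ b * P.N) =
      2508 * P.B ^ 4 * P.cc ^ 4 * P.N ^ 2 / K ^ 3 := by
    field_simp; ring
  rw [fin2] at fin1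
  have fin3 : (G.card : ℝ) ^ 2 * K ^ 5 = 4 * K ^ 3 * ((G.card : ℝ) * (K / 2)) ^ 2 := by ring
  rw [fin3]
  calc 4 * K ^ 3 * ((G.card : ℝ) * (K / 2)) ^ 2
      ≤ 4 * K ^ 3 * (4 * (2508 * P.B ^ 4 * P.cc ^ 4 * P.N ^ 2 / K ^ 3)) :=
        mul_le_mul_of_nonneg_left fin1 (by positivity)
    _ = _ := by field_simp; ring

/-- the class of the large differences -/
theorem cls0 {K : ℝ} (hK : 0 < K) (hK2 : K ≤ P.cc) (y : ℤ) (G : Finset (ι → Bool))
    (hG : ∀ x ∈ G, P.F x = y)
    (hGK : ∀ x ∈ G, K ≤ ((univ.filter (fun k => P.sz k / 2 < |P.L k x|)).card : ℝ)) :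
    (G.card : ℝ) ^ 2 * K ^ 5 ≤ 40128 * P.B ^ 4 * P.cc ^ 4 * P.N ^ 2 := by
  have hcc : 0 < P.cc := lt_of_lt_of_le hK hK2
  have hB := P.hB
  have hB0 := P.B_pos
  have hN := P.N_pos
  set θ : κ → (ι → Bool) → ℝ := fun k x => clp (P.L k x / P.sz k) with hθ
  have hM1 : ∑ k, ∑ x, (θ k x) ^ 2 ≤ P.cc * P.N := by
    calc ∑ k, ∑ x, (θ k x) ^ 2 ≤ ∑ _k : κ, P.N := by
          refine Finset.sum_le_sum fun k _ => ?_
          calc ∑ x, (θ k x) ^ 2 ≤ ∑ _x : ι → Bool, (1 : ℝ) := by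
                refine Finset.sum_le_sum fun x _ => ?_
                have := pow_le_pow_left₀ (abs_nonneg _) (clp_abs_le (P.L k x / P.sz k)) 2
                rwa [sq_abs, one_pow] at this
            _ = ((univ : Finset (ι → Bool)).card : ℝ) := by
                rw [Finset.sum_const, nsmul_eq_mul, mul_one]
            _ ≤ P.N := P.card_le_N _
      _ = P.cc * P.N := by rw [Finset.sum_const, nsmul_eq_mul]; rfl
  have hM2 : ∑ k, ∑ l, ∑ x, (θ k x - θ k (flip (P.e l) x)) ^ 2 ≤ P.cc * (P.N * P.B ^ 2) := by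
    calc ∑ k, ∑ l, ∑ x, (θ k x - θ k (flip (P.e l) x)) ^ 2 ≤ ∑ _k : κ, P.N * P.B ^ 2 := by
          refine Finset.sum_le_sum fun k _ => ?_
          rw [Finset.sum_comm]
          calc ∑ x, ∑ l, (θ k x - θ k (flip (P.e l) x)) ^ 2 ≤ ∑ _x : ι → Bool, P.B ^ 2 := by
                refine Finset.sum_le_sum fun x _ => ?_
                have hs := P.sz_pos k
                have h1 : ∀ l, (θ k x - θ k (flip (P.e l) x)) ^ 2 ≤
                    if l ∈ P.nb k then (P.B / P.sz k) ^ 2 else 0 := by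
                  intro l
                  by_cases h : l ∈ P.nb k
                  · rw [if_pos h]
                    have h2 := clp_lip (P.L k x / P.sz k) (P.L k (flip (P.e l) x) / P.sz k)
                    have e : P.L k x / P.sz k - P.L k (flip (P.e l) x) / P.sz k =
                        (P.L k x - P.L k (flip (P.e l) x)) / P.sz k := by ring
                    rw [e, abs_div, abs_of_pos hs] at h2
                    have h3 : |θ k x - θ k (flip (P.e l) x)| ≤ P.B / P.sz k :=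
                      h2.trans (div_le_div_of_nonneg_right (P.L_bd k l x) hs.le)
                    have h4 := pow_le_pow_left₀ (abs_nonneg _) h3 2
                    rwa [sq_abs] at h4
                  · rw [if_neg h]
                    simp only [hθ]
                    rw [P.L_zero h]; simp
                refine (Finset.sum_le_sum fun l _ => h1 l).trans (le_of_eq ?_)
                rw [Finset.sum_ite_mem, Finset.univ_inter, Finset.sum_const, nsmul_eq_mul, div_pow,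
                  P.sz_sq k]
                have hc : (0 : ℝ) < (P.nb k).card := by exact_mod_cast P.pos k
                field_simp
            _ = ((univ : Finset (ι → Bool)).card : ℝ) * P.B ^ 2 := by
                rw [Finset.sum_const, nsmul_eq_mul]
            _ ≤ P.N * P.B ^ 2 := mul_le_mul_of_nonneg_right (P.card_le_N _) (by positivity)
      _ = _ := by rw [Finset.sum_const, nsmul_eq_mul]; rfl
  have hGa : ∀ x ∈ G, K / 2 ≤ ∑ k, |θ k x| := by
    intro x hx
    set A : Finset κ := univ.filter (fun k => P.sz k / 2 < |P.L k x|) with hA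
    have hKA : K ≤ (A.card : ℝ) := hGK x hx
    calc K / 2 ≤ (A.card : ℝ) * (1 / 2) := by linarith
      _ = ∑ _k ∈ A, (1 / 2 : ℝ) := by rw [Finset.sum_const, nsmul_eq_mul]
      _ ≤ ∑ k ∈ A, |θ k x| := by
          refine Finset.sum_le_sum fun k hk => ?_
          have h := (Finset.mem_filter.1 hk).2
          have hs := P.sz_pos k
          apply clp_near
          rw [abs_div, abs_of_pos hs, lt_div_iff₀ hs]; linarith
      _ ≤ _ := Finset.sum_le_sum_of_subset_of_nonneg (Finset.subset_univ _) (fun k _ _ => abs_nonneg _)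
  have key := P.chain θ (fun k x => by simp only [hθ]; rw [P.L_self])
    (fun k x => by
      have hs := P.sz_pos k
      have h := clp_mul_nonneg (P.L k x / P.sz k)
      have e : θ k x * P.L k x = (clp (P.L k x / P.sz k) * (P.L k x / P.sz k)) * P.sz k := by
        simp only [hθ]; field_simp
      rw [e]; exact mul_nonneg h hs.le)
    (fun k x h => by simp only [hθ]; rw [h, zero_div, clp_zero])
    univ (fun x hx => absurd (Finset.mem_univ x) hx) G y hG (K / 2) (by positivity) hGa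
    (P.cc * P.N + 1 / 4 * (P.cc * (P.N * P.B ^ 2))) (by linarith)
  have h1 : ((univ : Finset (ι → Bool)).card : ℝ) ≤ P.N := P.card_le_N _
  have hB2 : 1 ≤ P.B ^ 2 := one_le_pow₀ hB
  have h2 : P.cc * P.N + 1 / 4 * (P.cc * (P.N * P.B ^ 2)) ≤ 2 * P.B ^ 2 * (P.cc * P.N) := by
    have : 0 ≤ P.cc * P.N := by positivity
    nlinarith
  have h3 : ((G.card : ℝ) * (K / 2)) ^ 2 ≤ 4 * (P.N * (2 * P.B ^ 2 * (P.cc * P.N))) := by
    refine key.trans (mul_le_mul_of_nonneg_left ?_ (by norm_num))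
    exact mul_le_mul h1 h2 (by positivity) hN.le
  have h4 : (G.card : ℝ) ^ 2 * K ^ 2 ≤ 32 * P.B ^ 2 * P.cc * P.N ^ 2 := by nlinarith
  have h5 : K ^ 3 ≤ P.cc ^ 3 := pow_le_pow_left₀ hK.le hK2 3
  calc (G.card : ℝ) ^ 2 * K ^ 5 = ((G.card : ℝ) ^ 2 * K ^ 2) * K ^ 3 := by ring
    _ ≤ (32 * P.B ^ 2 * P.cc * P.N ^ 2) * P.cc ^ 3 := mul_le_mul h4 h5 (by positivity) (by positivity)
    _ = 32 * P.B ^ 2 * (P.cc ^ 4 * P.N ^ 2) := by ring
    _ ≤ 40128 * P.B ^ 4 * (P.cc ^ 4 * P.N ^ 2) := by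
        refine mul_le_mul_of_nonneg_right ?_ (by positivity)
        nlinarith
    _ = _ := by ring

end Sys

end Pool.Agent.D0H73.QLO
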