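import Pool.Agent.R811.Cross.Comb

set_option autoImplicit false

/-! Weighted influences, second moments and the linear Littlewood-Offord bound on the cube. -/

namespace Pool.Agent.D0H73.QLO

open Finset Pool.Agent.R811.Cross

variable {ι : Type} [Fintype ι] [DecidableEq ι]

theorem sum_flipR (i : ι) (H : (ι → Bool) → ℝ) : ∑ x, H (flip i x) = ∑ x, H x := by
  have e : Function.Involutive (flip i : (ι → Bool) → (ι → Bool)) := flip_flip i
  exact Equiv.sum_comp e.toPerm H

/-- the sign of a bit as a real number -/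
def sr (b : Bool) : ℝ := if b then 1 else -1

theorem sr_sq (b : Bool) : sr b * sr b = 1 := by cases b <;> simp [sr]

theorem sr_not (b : Bool) : sr (!b) = -sr b := by cases b <;> simp [sr]

theorem sr_pm (b : Bool) : sr b = 1 ∨ sr b = -1 := by cases b <;> simp [sr]

theorem sr_sg (b : Bool) : ((sg b : ℤ) : ℝ) = sr b := by cases b <;> simp [sr, sg]

theorem point (u v dd : ℤ) (s : ℤ) (hs : s = 1 ∨ s = -1) (t : ℝ) (h : u - v = s * dd)
    (h2 : 0 ≤ t * (dd : ℝ)) :
    ((sn u : ℝ) - sn v) * ((s : ℝ) * t) = 2 * (if sn u ≠ sn v then |t| else 0) := by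
  by_cases huv : sn u = sn v
  · rw [if_neg (by simp [huv]), huv]; simp
  · rw [if_pos huv]
    rcases sn_pm u with hu | hu <;> rcases sn_pm v with hv | hv
    · exact absurd (hu.trans hv.symm) huv
    · have hu' : 0 ≤ u := by
        by_contra h0
        unfold sn at hu; rw [if_neg h0] at hu; norm_num at hu
      have hv' : v < 0 := by
        by_contra h0
        unfold sn at hv; rw [if_pos (not_lt.1 h0)] at hv; norm_num at hv
      rw [hu, hv]
      rcases hs with hs | hs
      · have hd : (0 : ℝ) < dd := by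
          have : 0 < dd := by rw [hs] at h; omega
          exact_mod_cast this
        have ht : 0 ≤ t := by
          by_contra h0
          nlinarith [mul_neg_of_neg_of_pos (not_le.1 h0) hd]
        rw [abs_of_nonneg ht, hs]; push_cast; ring
      · have hd : (dd : ℝ) < 0 := by
          have : dd < 0 := by rw [hs] at h; omega
          exact_mod_cast this
        have ht : t ≤ 0 := by
          by_contra h0
          nlinarith [mul_neg_of_pos_of_neg (not_le.1 h0) hd]
        rw [abs_of_nonpos ht, hs]; push_cast; ring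
    · have hv' : 0 ≤ v := by
        by_contra h0
        unfold sn at hv; rw [if_neg h0] at hv; norm_num at hv
      have hu' : u < 0 := by
        by_contra h0
        unfold sn at hu; rw [if_pos (not_lt.1 h0)] at hu; norm_num at hu
      rw [hu, hv]
      rcases hs with hs | hs
      · have hd : (dd : ℝ) < 0 := by
          have : dd < 0 := by rw [hs] at h; omega
          exact_mod_cast this
        have ht : t ≤ 0 := by
          by_contra h0
          nlinarith [mul_neg_of_pos_of_neg (not_le.1 h0) hd]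
        rw [abs_of_nonpos ht, hs]; push_cast; ring
      · have hd : (0 : ℝ) < dd := by
          have : 0 < dd := by rw [hs] at h; omega
          exact_mod_cast this
        have ht : 0 ≤ t := by
          by_contra h0
          nlinarith [mul_neg_of_neg_of_pos (not_le.1 h0) hd]
        rw [abs_of_nonneg ht, hs]; push_cast; ring
    · exact absurd (hu.trans hv.symm) huv

/-- weighted influences -/
theorem winf (i : ι) (H : (ι → Bool) → ℤ) (θ : (ι → Bool) → ℝ) (h1 : ∀ x, θ (flip i x) = θ x)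
    (h2 : ∀ x, 0 ≤ θ x * (D i H x : ℝ)) :
    ∑ x, (if sn (H x) ≠ sn (H (flip i x)) then |θ x| else 0) =
      ∑ x, (sn (H x) : ℝ) * (sr (x i) * θ x) := by
  have e1 : ∑ x, (sn (H (flip i x)) : ℝ) * (sr (flip i x i) * θ (flip i x)) =
      ∑ x, (sn (H x) : ℝ) * (sr (x i) * θ x) :=
    sum_flipR i (fun x => (sn (H x) : ℝ) * (sr (x i) * θ x))
  have e2 : 2 * ∑ x, (if sn (H x) ≠ sn (H (flip i x)) then |θ x| else 0) =
      2 * ∑ x, (sn (H x) : ℝ) * (sr (x i) * θ x) := by
    have e3 : 2 * ∑ x, (sn (H x) : ℝ) * (sr (x i) * θ x) =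
        ∑ x, ((sn (H x) : ℝ) * (sr (x i) * θ x) +
          (sn (H (flip i x)) : ℝ) * (sr (flip i x i) * θ (flip i x))) := by
      rw [Finset.sum_add_distrib, e1]; ring
    rw [e3, Finset.mul_sum]
    refine Finset.sum_congr rfl fun x _ => ?_
    rw [flip_same, sr_not, h1]
    have h := point (H x) (H (flip i x)) (D i H x) (sg (x i)) (sg_pm _) (θ x) (D_sg i H x) (h2 x)
    rw [sr_sg] at h
    rw [← h]; ring
  linarith

/-- the main inequality -/
theorem main_ineq {κ : Type} [Fintype κ] (e : κ → ι) (H : (ι → Bool) → ℤ) (y : ℤ)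
    (θ : κ → (ι → Bool) → ℝ) (h1 : ∀ k x, θ k (flip (e k) x) = θ k x)
    (h2 : ∀ k x, 0 ≤ θ k x * (D (e k) H x : ℝ)) (h3 : ∀ k x, D (e k) H x = 0 → θ k x = 0) :
    ∑ x, (if H x = y then ∑ k, |θ k x| else 0) ≤ 2 * ∑ x, |∑ k, sr (x (e k)) * θ k x| := by
  have key : ∀ c : ℤ, ∑ k, ∑ x, (if sn (H x - c) ≠ sn (H (flip (e k) x) - c) then |θ k x| else 0) ≤
      ∑ x, |∑ k, sr (x (e k)) * θ k x| := by
    intro c
    have e1 : ∑ k, ∑ x, (if sn (H x - c) ≠ sn (H (flip (e k) x) - c) then |θ k x| else 0) =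
        ∑ x, (sn (H x - c) : ℝ) * ∑ k, sr (x (e k)) * θ k x := by
      have : ∀ k, ∑ x, (if sn (H x - c) ≠ sn (H (flip (e k) x) - c) then |θ k x| else 0) =
          ∑ x, (sn (H x - c) : ℝ) * (sr (x (e k)) * θ k x) := fun k =>
        winf (e k) (fun x => H x - c) (θ k) (h1 k) (fun x => by rw [D_sub_const]; exact h2 k x)
      rw [Finset.sum_congr rfl (fun k _ => this k), Finset.sum_comm]
      exact Finset.sum_congr rfl fun x _ => by rw [Finset.mul_sum]
    rw [e1]
    refine Finset.sum_le_sum fun x _ => ?_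
    refine (le_abs_self _).trans ?_
    rw [abs_mul]
    have : |((sn (H x - c) : ℤ) : ℝ)| = 1 := by
      rcases sn_pm (H x - c) with h | h <;> rw [h] <;> norm_num
    rw [this, one_mul]
  have h4 : ∑ x, (if H x = y then ∑ k, |θ k x| else 0) ≤
      ∑ k, ∑ x, (if sn (H x - y) ≠ sn (H (flip (e k) x) - y) then |θ k x| else 0) +
      ∑ k, ∑ x, (if sn (H x - (y + 1)) ≠ sn (H (flip (e k) x) - (y + 1)) then |θ k x| else 0) := by
    rw [← Finset.sum_add_distrib]
    simp only [← Finset.sum_add_distrib]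
    rw [Finset.sum_comm]
    refine Finset.sum_le_sum fun x _ => ?_
    by_cases hx : H x = y
    · rw [if_pos hx]
      refine Finset.sum_le_sum fun k _ => ?_
      by_cases hD : D (e k) H x = 0
      · rw [h3 k x hD]; simp
      · have hne : H (flip (e k) x) ≠ y := by
          intro h
          have := D_sg (e k) H x
          rw [hx, h, sub_self] at this
          rcases sg_pm (x (e k)) with hs | hs <;> rw [hs] at this <;> omega
        have hab := abs_nonneg (θ k x)
        rw [hx]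
        rcases lt_or_gt_of_ne hne with h | h
        · have e1 : sn (y - y) = 1 := by unfold sn; rw [if_pos (by omega)]
          have e2 : sn (H (flip (e k) x) - y) = -1 := by unfold sn; rw [if_neg (by omega)]
          rw [e1, e2, if_pos (by norm_num)]
          split_ifs <;> linarith
        · have e1 : sn (y - (y + 1)) = -1 := by unfold sn; rw [if_neg (by omega)]
          have e2 : sn (H (flip (e k) x) - (y + 1)) = 1 := by unfold sn; rw [if_pos (by omega)]
          rw [e1, e2, if_pos (c := (-1 : ℤ) ≠ 1) (by norm_num)]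
          split_ifs <;> linarith
    · rw [if_neg hx]
      refine Finset.sum_nonneg fun k _ => ?_
      have hab := abs_nonneg (θ k x)
      split_ifs <;> linarith
  have k1 := key y
  have k2 := key (y + 1)
  linarith

/-- the cross terms -/
theorem crossR {i j : ι} (hij : i ≠ j) (f g : (ι → Bool) → ℝ) (h1 : ∀ x, f (flip i x) = f x)
    (h2 : ∀ x, g (flip j x) = g x) :
    ∑ x, (sr (x i) * f x) * (sr (x j) * g x) ≤
      1 / 8 * ∑ x, (f x - f (flip j x)) ^ 2 + 1 / 8 * ∑ x, (g x - g (flip i x)) ^ 2 := by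
  have a1 : ∀ x : ι → Bool, sr (flip i x i) = -sr (x i) := fun x => by rw [flip_same, sr_not]
  have a2 : ∀ x : ι → Bool, sr (flip j x j) = -sr (x j) := fun x => by rw [flip_same, sr_not]
  have a3 : ∀ x : ι → Bool, sr (flip i x j) = sr (x j) := fun x => by rw [flip_ne hij.symm]
  have a4 : ∀ x : ι → Bool, sr (flip j x i) = sr (x i) := fun x => by rw [flip_ne hij]
  set A : (ι → Bool) → ℝ := fun x => (sr (x i) * f x) * (sr (x j) * g x) with hA
  have s1 := sum_flipR i A
  have s2 := sum_flipR j A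
  have s3 : ∑ x, A (flip i (flip j x)) = ∑ x, A x := by
    rw [sum_flipR j (fun x => A (flip i x))]; exact s1
  have e : 4 * ∑ x, A x = ∑ x, (sr (x i) * sr (x j)) * ((f x - f (flip j x)) * (g x - g (flip i x))) := by
    have : 4 * ∑ x, A x = ∑ x, (A x + A (flip i x) + A (flip j x) + A (flip i (flip j x))) := by
      rw [Finset.sum_add_distrib, Finset.sum_add_distrib, Finset.sum_add_distrib, s1, s2, s3]; ring
    rw [this]
    refine Finset.sum_congr rfl fun x _ => ?_
    simp only [hA]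
    have b1 : f (flip i (flip j x)) = f (flip j x) := h1 _
    have b2 : g (flip i (flip j x)) = g (flip i x) := by rw [flip_comm, h2]
    rw [a1, a1, a2, a3, a3, a4, b1, b2, h1, h2, a2]
    ring
  have h : 4 * ∑ x, A x ≤ ∑ x, (1 / 2 * (f x - f (flip j x)) ^ 2 + 1 / 2 * (g x - g (flip i x)) ^ 2) := by
    rw [e]
    refine Finset.sum_le_sum fun x _ => ?_
    have hs : (sr (x i) * sr (x j)) = 1 ∨ (sr (x i) * sr (x j)) = -1 := by
      rcases sr_pm (x i) with h | h <;> rcases sr_pm (x j) with h' | h' <;> rw [h, h'] <;> norm_num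
    rcases hs with hs | hs <;> rw [hs] <;>
      nlinarith [sq_nonneg ((f x - f (flip j x)) - (g x - g (flip i x))),
        sq_nonneg ((f x - f (flip j x)) + (g x - g (flip i x)))]
  rw [Finset.sum_add_distrib, ← Finset.mul_sum, ← Finset.mul_sum] at h
  linarith

/-- the second moment -/
theorem second {κ : Type} [Fintype κ] [DecidableEq κ] (e : κ → ι) (he : Function.Injective e)
    (θ : κ → (ι → Bool) → ℝ) (h1 : ∀ k x, θ k (flip (e k) x) = θ k x) :
    ∑ x, (∑ k, sr (x (e k)) * θ k x) ^ 2 ≤ ∑ k, ∑ x, (θ k x) ^ 2 +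
      1 / 4 * ∑ k, ∑ l, ∑ x, (θ k x - θ k (flip (e l) x)) ^ 2 := by
  set Q : κ → κ → ℝ := fun k l => ∑ x, (θ k x - θ k (flip (e l) x)) ^ 2 with hQ
  have hQ0 : ∀ k l, 0 ≤ Q k l := fun k l => Finset.sum_nonneg fun x _ => sq_nonneg _
  have e1 : ∑ x, (∑ k, sr (x (e k)) * θ k x) ^ 2 =
      ∑ k, ∑ l, ∑ x, (sr (x (e k)) * θ k x) * (sr (x (e l)) * θ l x) := by
    have : ∀ x : ι → Bool, (∑ k, sr (x (e k)) * θ k x) ^ 2 =
        ∑ k, ∑ l, (sr (x (e k)) * θ k x) * (sr (x (e l)) * θ l x) := by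
      intro x
      rw [pow_two, Finset.sum_mul_sum]
    rw [Finset.sum_congr rfl (fun x _ => this x), Finset.sum_comm]
    refine Finset.sum_congr rfl fun k _ => ?_
    rw [Finset.sum_comm]
  have e2 : ∀ k l, ∑ x, (sr (x (e k)) * θ k x) * (sr (x (e l)) * θ l x) ≤
      (if k = l then ∑ x, (θ k x) ^ 2 else 0) + (1 / 8 * Q k l + 1 / 8 * Q l k) := by
    intro k l
    by_cases hkl : k = l
    · subst hkl
      rw [if_pos rfl]
      have : ∑ x, (sr (x (e k)) * θ k x) * (sr (x (e k)) * θ k x) = ∑ x, (θ k x) ^ 2 := by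
        refine Finset.sum_congr rfl fun x _ => ?_
        calc (sr (x (e k)) * θ k x) * (sr (x (e k)) * θ k x) =
            (sr (x (e k)) * sr (x (e k))) * (θ k x) ^ 2 := by ring
          _ = _ := by rw [sr_sq, one_mul]
      rw [this]
      have := hQ0 k k
      linarith
    · rw [if_neg hkl, zero_add]
      exact crossR (fun h => hkl (he h)) (θ k) (θ l) (h1 k) (h1 l)
  rw [e1]
  have e3 : ∑ k, ∑ l, ∑ x, (sr (x (e k)) * θ k x) * (sr (x (e l)) * θ l x) ≤
      ∑ k, ∑ l, ((if k = l then ∑ x, (θ k x) ^ 2 else 0) + (1 / 8 * Q k l + 1 / 8 * Q l k)) :=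
    Finset.sum_le_sum fun k _ => Finset.sum_le_sum fun l _ => e2 k l
  refine e3.trans ?_
  have e4 : ∑ k, ∑ l, ((if k = l then ∑ x, (θ k x) ^ 2 else 0) + (1 / 8 * Q k l + 1 / 8 * Q l k)) =
      ∑ k, ∑ x, (θ k x) ^ 2 + (1 / 8 * ∑ k, ∑ l, Q k l + 1 / 8 * ∑ k, ∑ l, Q l k) := by
    simp only [Finset.sum_add_distrib, Finset.mul_sum, Finset.sum_ite_eq, Finset.mem_univ, if_true]
  rw [e4, Finset.sum_comm (f := fun k l => Q l k)]
  linarith

/-- the linear Littlewood-Offord inequality -/
theorem lo_sq (L : (ι → Bool) → ℤ) (S : Finset ι) (hL : ∀ j ∈ S, ∀ x y, D j L x = D j L y)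
    (hS : ∀ j ∈ S, ∀ x, D j L x ≠ 0) (v : ℤ) :
    (S.card : ℤ) * ((univ.filter (fun x => L x = v)).card : ℤ) ^ 2 ≤ 4 * 4 ^ Fintype.card ι := by
  set M : ℤ := ((univ.filter (fun x => L x = v)).card : ℤ) with hM
  have hM0 : 0 ≤ M := by positivity
  have eM : M = ∑ x, (if L x = v then (1 : ℤ) else 0) := by
    rw [hM, Finset.card_filter]; push_cast; rfl
  have h1 : ∀ j ∈ S, M ≤ Pool.Agent.R811.Cross.inf j (fun x => sn (L x - v)) + Pool.Agent.R811.Cross.inf j (fun x => sn (L x - (v + 1))) := by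
    intro j hj
    rw [eM]
    unfold Pool.Agent.R811.Cross.inf
    rw [← Finset.sum_add_distrib]
    refine Finset.sum_le_sum fun x _ => ?_
    by_cases hx : L x = v
    · rw [if_pos hx]
      have hne : L (flip j x) ≠ v := by
        intro h
        have := D_sg j L x
        rw [hx, h, sub_self] at this
        have h0 := hS j hj x
        rcases sg_pm (x j) with hs | hs <;> rw [hs] at this <;> omega
      beta_reduce
      rw [hx]
      rcases lt_or_gt_of_ne hne with h | h
      · have e1 : sn (v - v) = 1 := by unfold sn; rw [if_pos (by omega)]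
        have e2 : sn (L (flip j x) - v) = -1 := by unfold sn; rw [if_neg (by omega)]
        rw [e1, e2, if_pos (by norm_num)]
        split_ifs <;> norm_num
      · have e1 : sn (v - (v + 1)) = -1 := by unfold sn; rw [if_neg (by omega)]
        have e2 : sn (L (flip j x) - (v + 1)) = 1 := by unfold sn; rw [if_pos (by omega)]
        rw [e1, e2, if_pos (c := (-1 : ℤ) ≠ 1) (by norm_num)]
        split_ifs <;> norm_num
    · rw [if_neg hx]
      split_ifs <;> norm_num
  have h2 : (S.card : ℤ) * M ≤ ∑ j ∈ S, Pool.Agent.R811.Cross.inf j (fun x => sn (L x - v)) +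
      ∑ j ∈ S, Pool.Agent.R811.Cross.inf j (fun x => sn (L x - (v + 1))) := by
    rw [← Finset.sum_add_distrib]
    calc (S.card : ℤ) * M = ∑ _j ∈ S, M := by rw [Finset.sum_const, nsmul_eq_mul]
      _ ≤ _ := Finset.sum_le_sum h1
  have h3 := lin S (fun x => L x - v) (fun j hj x y => by rw [D_sub_const]; exact hL j hj x y)
  have h4 := lin S (fun x => L x - (v + 1)) (fun j hj x y => by rw [D_sub_const]; exact hL j hj x y)
  set A := ∑ j ∈ S, Pool.Agent.R811.Cross.inf j (fun x => sn (L x - v))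
  set B := ∑ j ∈ S, Pool.Agent.R811.Cross.inf j (fun x => sn (L x - (v + 1)))
  set c : ℤ := (S.card : ℤ) with hc
  have hc0 : 0 ≤ c := by positivity
  set N : ℤ := 4 ^ Fintype.card ι with hN
  have hN0 : 0 < N := by positivity
  have h5 : (c * M) ^ 2 ≤ (A + B) ^ 2 := pow_le_pow_left₀ (by positivity) h2 2
  have h6 : (A + B) ^ 2 ≤ 4 * (N * c) := by nlinarith [sq_nonneg (A - B)]
  rcases hc0.eq_or_lt with h0 | h0
  · rw [← h0]; simp only [zero_mul]; positivity
  · have h7 : c * (c * M ^ 2) ≤ c * (4 * N) := by nlinarith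
    exact le_of_mul_le_mul_left h7 h0

theorem lo (L : (ι → Bool) → ℤ) (S : Finset ι) (hL : ∀ j ∈ S, ∀ x y, D j L x = D j L y)
    (hS : ∀ j ∈ S, ∀ x, D j L x ≠ 0) (v : ℤ) :
    ((univ.filter (fun x => L x = v)).card : ℝ) * √(S.card : ℝ) ≤ 2 * 2 ^ Fintype.card ι := by
  have h := lo_sq L S hL hS v
  have h' : (S.card : ℝ) * ((univ.filter (fun x => L x = v)).card : ℝ) ^ 2 ≤
      4 * 4 ^ Fintype.card ι := by exact_mod_cast h
  apply abs_le_of_sq_le_sq' _ (by positivity) |>.2
  rw [mul_pow, Real.sq_sqrt (by positivity)]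
  have e : (2 * 2 ^ Fintype.card ι : ℝ) ^ 2 = 4 * 4 ^ Fintype.card ι := by
    rw [mul_pow, ← pow_mul, mul_comm (Fintype.card ι), pow_mul]; norm_num
  rw [e]
  linarith

/-- a few values -/
theorem lo_abs (L : (ι → Bool) → ℤ) (S : Finset ι) (hL : ∀ j ∈ S, ∀ x y, D j L x = D j L y)
    (hS : ∀ j ∈ S, ∀ x, D j L x ≠ 0) (R : ℝ) (hR : 0 ≤ R) :
    ((univ.filter (fun x => |(L x : ℝ)| ≤ R)).card : ℝ) * √(S.card : ℝ) ≤
      (2 * R + 1) * (2 * 2 ^ Fintype.card ι) := by
  classical
  set r : ℤ := ⌊R⌋ with hr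
  have hr0 : 0 ≤ r := Int.floor_nonneg.2 hR
  have hsub : (univ.filter (fun x => |(L x : ℝ)| ≤ R)) ⊆
      (Finset.Icc (-r) r).biUnion (fun v => univ.filter (fun x => L x = v)) := by
    intro x hx
    rw [Finset.mem_filter] at hx
    rw [Finset.mem_biUnion]
    refine ⟨L x, ?_, by simp⟩
    have h2 : |L x| ≤ r := by
      rw [hr]
      apply Int.le_floor.2
      have := hx.2
      push_cast
      exact this
    rw [Finset.mem_Icc]
    exact abs_le.1 h2
  have h1 : ((univ.filter (fun x => |(L x : ℝ)| ≤ R)).card : ℝ) ≤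
      ∑ v ∈ Finset.Icc (-r) r, ((univ.filter (fun x => L x = v)).card : ℝ) := by
    have := (Finset.card_le_card hsub).trans Finset.card_biUnion_le
    exact_mod_cast this
  have hcard : ((Finset.Icc (-r) r).card : ℝ) ≤ 2 * R + 1 := by
    rw [Int.card_Icc]
    have h3 : ((r + 1 - -r).toNat : ℤ) = 2 * r + 1 := by
      rw [Int.toNat_of_nonneg (by omega)]; ring
    have h4 : ((r + 1 - -r).toNat : ℝ) = 2 * (r : ℝ) + 1 := by exact_mod_cast h3
    rw [h4]
    have := Int.floor_le R
    linarith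
  calc ((univ.filter (fun x => |(L x : ℝ)| ≤ R)).card : ℝ) * √(S.card : ℝ)
      ≤ (∑ v ∈ Finset.Icc (-r) r, ((univ.filter (fun x => L x = v)).card : ℝ)) * √(S.card : ℝ) :=
        mul_le_mul_of_nonneg_right h1 (Real.sqrt_nonneg _)
    _ = ∑ v ∈ Finset.Icc (-r) r, ((univ.filter (fun x => L x = v)).card : ℝ) * √(S.card : ℝ) := by
        rw [Finset.sum_mul]
    _ ≤ ∑ _v ∈ Finset.Icc (-r) r, (2 * 2 ^ Fintype.card ι : ℝ) :=
        Finset.sum_le_sum fun v _ => lo L S hL hS v
    _ = ((Finset.Icc (-r) r).card : ℝ) * (2 * 2 ^ Fintype.card ι) := by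
        rw [Finset.sum_const, nsmul_eq_mul]
    _ ≤ (2 * R + 1) * (2 * 2 ^ Fintype.card ι) :=
        mul_le_mul_of_nonneg_right hcard (by positivity)

end Pool.Agent.D0H73.QLO
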