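import Mathlib

set_option autoImplicit false

/-! Piecewise linear cut-off functions. -/

namespace Pool.Agent.D0H73.QLO

/-- truncation to `[0, 1]` -/
noncomputable def c01 (t : ℝ) : ℝ := max 0 (min 1 t)

theorem c01_nonneg (t : ℝ) : 0 ≤ c01 t := le_max_left _ _

theorem c01_le_one (t : ℝ) : c01 t ≤ 1 := max_le (by norm_num) (min_le_left _ _)

theorem c01_eq_one {t : ℝ} (h : 1 ≤ t) : c01 t = 1 := by
  unfold c01; rw [min_eq_left h]; norm_num

theorem c01_eq_zero {t : ℝ} (h : t ≤ 0) : c01 t = 0 := by
  unfold c01; rw [max_eq_left]; exact (min_le_right _ _).trans h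

theorem c01_lip (s t : ℝ) : |c01 s - c01 t| ≤ |s - t| := by
  unfold c01
  rcases le_total s t with h | h <;> rw [abs_sub_comm s t, abs_sub_comm (max 0 (min 1 s))] <;>
    rw [abs_le] <;> constructor <;>
    (have e1 := abs_nonneg (t - s)
     have e2 := le_abs_self (t - s)
     have e3 := neg_le_abs (t - s)
     simp only [max_def, min_def]
     split_ifs <;> linarith)

/-- the bump -/
noncomputable def psi (t : ℝ) : ℝ := max 0 (min t (2 - t)) - max 0 (min (-t) (2 + t))

theorem psi_mul_nonneg (t : ℝ) : 0 ≤ psi t * t := by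
  unfold psi
  rcases le_total 0 t with h | h
  · have : max 0 (min (-t) (2 + t)) = 0 := max_eq_left ((min_le_left _ _).trans (by linarith))
    rw [this, sub_zero]
    exact mul_nonneg (le_max_left _ _) h
  · have : max 0 (min t (2 - t)) = 0 := max_eq_left ((min_le_left _ _).trans (by linarith))
    rw [this, zero_sub]
    have h1 : 0 ≤ max 0 (min (-t) (2 + t)) := le_max_left _ _
    nlinarith

theorem psi_zero : psi 0 = 0 := by unfold psi; norm_num

theorem psi_abs_le (t : ℝ) : |psi t| ≤ 1 := by
  unfold psi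
  rw [abs_le]
  constructor <;> (simp only [max_def, min_def]; split_ifs <;> linarith)

theorem psi_lip (s t : ℝ) : |psi s - psi t| ≤ 2 * |s - t| := by
  unfold psi
  have e1 := abs_nonneg (s - t)
  have e2 := le_abs_self (s - t)
  have e3 := neg_le_abs (s - t)
  have h1 : |max 0 (min s (2 - s)) - max 0 (min t (2 - t))| ≤ |s - t| := by
    rw [abs_le]
    constructor <;> (simp only [max_def, min_def]; split_ifs <;> linarith)
  have h2 : |max 0 (min (-s) (2 + s)) - max 0 (min (-t) (2 + t))| ≤ |s - t| := by
    rw [abs_le]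
    constructor <;> (simp only [max_def, min_def]; split_ifs <;> linarith)
  have h3 := abs_sub (max 0 (min s (2 - s)) - max 0 (min t (2 - t)))
    (max 0 (min (-s) (2 + s)) - max 0 (min (-t) (2 + t)))
  have h4 : max 0 (min s (2 - s)) - max 0 (min (-s) (2 + s)) - (max 0 (min t (2 - t)) -
      max 0 (min (-t) (2 + t))) = max 0 (min s (2 - s)) - max 0 (min t (2 - t)) -
    (max 0 (min (-s) (2 + s)) - max 0 (min (-t) (2 + t))) := by ring
  rw [h4]
  linarith

theorem psi_far {t : ℝ} (h : 2 ≤ |t|) : psi t = 0 := by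
  unfold psi
  rcases le_total 0 t with h0 | h0
  · rw [abs_of_nonneg h0] at h
    rw [max_eq_left ((min_le_right _ _).trans (by linarith)),
      max_eq_left ((min_le_left _ _).trans (by linarith))]
    norm_num
  · rw [abs_of_nonpos h0] at h
    rw [max_eq_left ((min_le_left _ _).trans (by linarith)),
      max_eq_left ((min_le_right _ _).trans (by linarith))]
    norm_num

theorem psi_near {t : ℝ} (h1 : 1 / 2 < |t|) (h2 : |t| ≤ 1) : 1 / 2 ≤ |psi t| := by
  unfold psi
  rcases le_total 0 t with h0 | h0
  · rw [abs_of_nonneg h0] at h1 h2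
    have e1 : max 0 (min (-t) (2 + t)) = 0 := max_eq_left ((min_le_left _ _).trans (by linarith))
    have e2 : min t (2 - t) = t := min_eq_left (by linarith)
    rw [e1, e2, max_eq_right h0, sub_zero, abs_of_nonneg h0]
    exact h1.le
  · rw [abs_of_nonpos h0] at h1 h2
    have e1 : max 0 (min t (2 - t)) = 0 := max_eq_left ((min_le_left _ _).trans (by linarith))
    have e2 : min (-t) (2 + t) = -t := min_eq_left (by linarith)
    rw [e1, e2, max_eq_right (by linarith), zero_sub, abs_neg, abs_of_nonneg (by linarith)]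
    exact h1.le

/-- truncation to `[-1, 1]` -/
noncomputable def clp (t : ℝ) : ℝ := max (-1) (min 1 t)

theorem clp_mul_nonneg (t : ℝ) : 0 ≤ clp t * t := by
  unfold clp
  rcases le_total 0 t with h | h
  · exact mul_nonneg (le_max_of_le_right (le_min (by norm_num) h)) h
  · have : max (-1) (min 1 t) ≤ 0 := max_le (by norm_num) ((min_le_right _ _).trans h)
    nlinarith

theorem clp_zero : clp 0 = 0 := by unfold clp; norm_num

theorem clp_abs_le (t : ℝ) : |clp t| ≤ 1 := by
  unfold clp
  rw [abs_le]
  exact ⟨le_max_left _ _, max_le (by norm_num) (min_le_left _ _)⟩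

theorem clp_lip (s t : ℝ) : |clp s - clp t| ≤ |s - t| := by
  unfold clp
  have e1 := abs_nonneg (s - t)
  have e2 := le_abs_self (s - t)
  have e3 := neg_le_abs (s - t)
  rw [abs_le]
  constructor <;> (simp only [max_def, min_def]; split_ifs <;> linarith)

theorem clp_near {t : ℝ} (h1 : 1 / 2 < |t|) : 1 / 2 ≤ |clp t| := by
  unfold clp
  rcases le_total 0 t with h0 | h0
  · rw [abs_of_nonneg h0] at h1
    have : 1 / 2 ≤ max (-1) (min 1 t) := le_max_of_le_right (le_min (by norm_num) h1.le)
    exact this.trans (le_abs_self _)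
  · rw [abs_of_nonpos h0] at h1
    have : max (-1) (min 1 t) ≤ -(1 / 2) := max_le (by norm_num) ((min_le_right _ _).trans (by linarith))
    have h2 := neg_le_abs (max (-1) (min 1 t))
    linarith

end Pool.Agent.D0H73.QLO
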