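import Pool.Agent.R811.Cross.Closed
import Pool.Agent.Y463.BS.Last

set_option autoImplicit false
set_option linter.unusedSectionVars false

/-! The second differences of the second moment are bounded. -/

namespace Pool.Agent.D0H73.QLO.Kn

open Finset LaurentPolynomial Pool.Agent.H891R2.Jones Pool.Agent.H832R3.VJ Pool.Agent.R811.Cross
open Pool.Agent.Y463.BS (E lp pts cor al X W v Two lp_same lp_join lp_mem lp_congr quot_E W_eq
  m_bracket count_pts_append card_strand knot_moments mem_X Strand E_cons)
open Pool.Agent.H953R3.Q2 (T_mul0 T_mul1 T_mul2 mul0 mul1 mul2)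

/-! ### numbers of classes -/

theorem eqv_mono {α : Type} {r r' : α → α → Prop} (h : ∀ a b, r a b → r' a b) {x y : α}
    (hxy : Relation.EqvGen r x y) : Relation.EqvGen r' x y := by
  induction hxy with
  | rel x y h0 => exact .rel _ _ (h _ _ h0)
  | refl x => exact .refl _
  | symm x y _ ih => exact ih.symm
  | trans x y z _ _ h1 h2 => exact h1.trans _ _ _ h2

section classes

variable {P : Type}

theorem lp_cons_le [Finite P] (z : P × P) (L : List (P × P)) : lp (z :: L) ≤ lp L := by
  by_cases h : E L z.1 z.2
  · exact (lp_same h).le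
  · have := lp_join h
    have e : (z.1, z.2) = z := rfl
    rw [e] at this
    omega

theorem le_lp_cons [Finite P] (z : P × P) (L : List (P × P)) : lp L ≤ lp (z :: L) + 1 := by
  by_cases h : E L z.1 z.2
  · have := lp_same h
    have e : (z.1, z.2) = z := rfl
    rw [e] at this
    omega
  · have := lp_join h
    have e : (z.1, z.2) = z := rfl
    rw [e] at this
    omega

theorem lp_append_le [Finite P] (A L : List (P × P)) : lp (A ++ L) ≤ lp L := by
  induction A with
  | nil => exact le_refl _
  | cons z A ih => exact (lp_cons_le z (A ++ L)).trans ih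

theorem le_lp_append [Finite P] (A L : List (P × P)) : lp L ≤ lp (A ++ L) + A.length := by
  induction A with
  | nil => simp
  | cons z A ih =>
    have := le_lp_cons z (A ++ L)
    rw [List.cons_append, List.length_cons]
    omega

theorem lp_eq_one [Nonempty P] {L : List (P × P)} (h : ∀ x y, E L x y) : lp L = 1 := by
  unfold Pool.Agent.Y463.BS.lp
  rw [Nat.card_eq_one_iff_unique]
  refine ⟨⟨fun a b => ?_⟩, ⟨Quot.mk _ (Classical.arbitrary P)⟩⟩
  induction a using Quot.ind with
  | mk a =>
    induction b using Quot.ind with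
    | mk b => exact quot_E.2 (h a b)

theorem one_le_lp [Finite P] [Nonempty P] (L : List (P × P)) : 1 ≤ lp L := by
  unfold Pool.Agent.Y463.BS.lp
  have : Nonempty (Quot (E L)) := ⟨Quot.mk _ (Classical.arbitrary P)⟩
  exact Nat.card_pos

end classes

/-- the value at `A = 1` of the polynomial of a closed diagram -/
theorem m0_abs {P : Type} [Finite P] [DecidableEq P] [Nonempty P] (D : Diagram P)
    (h : Two (al D.arcs D.crossings)) (k : ℕ) (hk : lp (X D.crossings ++ D.arcs) ≤ k + 1) :
    |moment 0 D.fPoly| ≤ 2 ^ k := by
  have h1 := (m_bracket D).1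
  rw [W_eq _ _ h] at h1
  have h2 : |(-2 : ℤ) * moment 0 D.bracket| = 2 ^ lp (X D.crossings ++ D.arcs) := by
    rw [h1]
    unfold v
    rw [abs_mul, abs_pow, abs_pow]
    norm_num
  rw [abs_mul] at h2
  have h3 : |moment 0 D.fPoly| = |moment 0 D.bracket| := by
    unfold Diagram.fPoly
    rw [mul0, mul0, m_T, pow_zero, mul_one]
    have e : moment 0 (1 : ℤ[T;T⁻¹]) = 1 := by rw [← T_zero, m_T]; simp
    have h4 : moment 0 (if Even D.writhe then (1 : ℤ[T;T⁻¹]) else -1) = 1 ∨
        moment 0 (if Even D.writhe then (1 : ℤ[T;T⁻¹]) else -1) = -1 := by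
      split_ifs
      · left; exact e
      · right; rw [← zero_sub, m_sub, e, ← V7.momH_apply, map_zero]; norm_num
    rcases h4 with h4 | h4 <;> rw [h4]
    · rw [one_mul]
    · rw [neg_one_mul, abs_neg]
  rw [h3]
  have h5 : (2 : ℤ) ^ lp (X D.crossings ++ D.arcs) ≤ 2 ^ (k + 1) :=
    pow_le_pow_right₀ (by norm_num) hk
  rw [pow_succ] at h5
  have h6 : |(-2 : ℤ)| = 2 := by norm_num
  rw [h6] at h2
  linarith

variable {n : ℕ} (G : Shadow n)

/-- the four edges at a double point -/
def base (k : Fin n) : List (Fin (2 * n)) := [G.p k, G.q k, next (G.p k), next (G.q k)]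

theorem cor_count (k : Fin n) (b : Bool) (e : Fin (2 * n)) :
    (cor (G.choice k b)).count e = (base G k).count e := by
  unfold cor base Shadow.choice positive negative Shadow.crossing switch Crossing.sign
  cases G.left k <;> cases b <;> simp [List.count_cons] <;> omega

theorem sm_count (k : Fin n) (e : Fin (2 * n)) :
    (pts (sm (G.crossing k))).count e = (base G k).count e := by
  unfold pts sm base positive Shadow.crossing switch Crossing.sign
  cases G.left k <;> simp [List.count_cons] <;> omega

theorem flat_count (l : List (Fin n)) (s : Fin n → Bool) (e : Fin (2 * n)) :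
    ((l.map (fun k => G.choice k (s k))).flatMap cor).count e = (l.flatMap (base G)).count e := by
  induction l with
  | nil => rfl
  | cons k l ih =>
    rw [List.map_cons, List.flatMap_cons, List.flatMap_cons, List.count_append, List.count_append, ih,
      cor_count]

theorem base_count (l : List (Fin n)) (e : Fin (2 * n)) :
    (l.flatMap (base G)).count e = ((l.map (fun k => id (G.p k))).count e +
      (l.map (fun k => id (G.q k))).count e) + ((l.map (fun k => next (G.p k))).count e +
      (l.map (fun k => next (G.q k))).count e) := by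
  induction l with
  | nil => rfl
  | cons k l ih =>
    rw [List.flatMap_cons, List.count_append, ih]
    simp only [base, List.map_cons, List.count_cons, List.count_nil, id]
    omega

theorem two_all (e : Fin (2 * n)) : ((List.finRange n).flatMap (base G)).count e = 2 := by
  rw [base_count, count_pq G id Function.injective_id e, count_pq G next next_inj e]

theorem perm_rest (l : List (Fin n)) (hl : l.Nodup) :
    (l ++ (List.finRange n).filter (fun k => k ∉ l)).Perm (List.finRange n) := by
  rw [List.perm_ext_iff_of_nodup _ (List.nodup_finRange n)]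
  · intro a
    simp only [List.mem_finRange, List.mem_append, List.mem_filter, true_and, decide_eq_true_eq, iff_true]
    tauto
  · apply List.Nodup.append hl ((List.nodup_finRange n).filter _)
    intro a ha hb
    have := (List.mem_filter.1 hb).2
    simp only [decide_eq_true_eq] at this
    exact this ha

theorem two_smooth {i j : Fin n} (hij : i ≠ j) (s : Fin n → Bool) :
    Two (al (sm (G.crossing j) ++ (sm (G.crossing i) ++ [])) (rest G [i, j] s)) := by
  intro e
  right
  unfold al
  rw [List.count_append, count_pts_append, count_pts_append, sm_count, sm_count]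
  unfold rest
  rw [flat_count]
  have h := (List.Perm.flatMap_right (base G) (perm_rest [i, j] (by simp [hij]))).count_eq e
  rw [two_all] at h
  rw [List.flatMap_append, List.count_append, List.flatMap_cons, List.flatMap_cons, List.flatMap_nil,
    List.append_nil, List.count_append] at h
  have h0 : (pts ([] : List (Fin (2 * n) × Fin (2 * n)))).count e = 0 := rfl
  rw [h0]
  omega

theorem E_all (s : Fin n → Bool) (x y : Fin (2 * n)) : E (X (G.diagram s).crossings) x y := by
  have h := isKnot G s x y
  refine eqv_mono ?_ h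
  intro p q hpq
  rcases hpq with h | h
  · exact absurd h (by simp [Shadow.diagram])
  · exact (mem_X _ _ _).2 h

theorem lp_rest {i j : Fin n} (s : Fin n → Bool) : lp (X (rest G [i, j] s)) ≤ 5 := by
  have : Nonempty (Fin (2 * n)) := ⟨G.p i⟩
  set A : List (Fin (2 * n) × Fin (2 * n)) :=
    [((G.choice i (s i)).a, (G.choice i (s i)).c), ((G.choice i (s i)).b, (G.choice i (s i)).d),
      ((G.choice j (s j)).a, (G.choice j (s j)).c), ((G.choice j (s j)).b, (G.choice j (s j)).d)] with hA
  have h1 : lp (A ++ X (rest G [i, j] s)) = 1 := by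
    apply lp_eq_one
    intro x y
    refine eqv_mono ?_ (E_all G s x y)
    intro p q hpq
    obtain ⟨z, hz, h⟩ := (mem_X _ _ _).1 hpq
    obtain ⟨k, _, rfl⟩ := List.mem_map.1 hz
    rw [List.mem_append]
    by_cases hi : k = i
    · subst hi
      left
      rw [hA]
      rcases h with ⟨rfl, rfl⟩ | ⟨rfl, rfl⟩ <;> simp
    by_cases hj : k = j
    · subst hj
      left
      rw [hA]
      rcases h with ⟨rfl, rfl⟩ | ⟨rfl, rfl⟩ <;> simp
    right
    exact (mem_X _ _ _).2 ⟨_, (mem_rest G _ s _).2 ⟨k, by simp [hi, hj], rfl⟩, h⟩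
  have h2 := le_lp_append A (X (rest G [i, j] s))
  rw [h1] at h2
  exact h2

theorem m0_smooth {i j : Fin n} (hij : i ≠ j) (s : Fin n → Bool) :
    |moment 0 (⟨sm (G.crossing j) ++ (sm (G.crossing i) ++ []), rest G [i, j] s⟩ :
      Diagram (Fin (2 * n))).fPoly| ≤ 16 := by
  have : Nonempty (Fin (2 * n)) := ⟨G.p i⟩
  have h := m0_abs (⟨sm (G.crossing j) ++ (sm (G.crossing i) ++ []), rest G [i, j] s⟩ :
      Diagram (Fin (2 * n))) (two_smooth G hij s) 4 ?_
  · norm_num at h ⊢
    exact h
  · show lp (X (rest G [i, j] s) ++ (sm (G.crossing j) ++ (sm (G.crossing i) ++ []))) ≤ 4 + 1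
    rw [lp_mem (M := (sm (G.crossing j) ++ (sm (G.crossing i) ++ [])) ++ X (rest G [i, j] s))
      (fun z => by simp only [List.mem_append]; tauto)]
    exact (lp_append_le _ _).trans (lp_rest G s)

/-- the first two moments for a knot -/
theorem knot01 (i : Fin n) (s : Fin n → Bool) :
    moment 0 (G.diagram s).fPoly = 1 ∧ moment 1 (G.diagram s).fPoly = 0 := by
  have : Nonempty (Fin (2 * n)) := ⟨G.p i⟩
  refine knot_moments (G.diagram s) ⟨isClosed G s, ?_⟩
  rw [card_strand]
  apply lp_eq_one
  intro x y
  refine eqv_mono ?_ (E_all G s x y)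
  intro p q h
  exact List.mem_append_left _ h

theorem fP2 {i j : Fin n} (hij : i ≠ j) (s : Fin n → Bool) (a b : Bool) :
    (G.diagram (Function.update (Function.update s j b) i a)).fPoly =
      (⟨[], G.choice i a :: G.choice j b :: rest G [i, j] s⟩ : Diagram (Fin (2 * n))).fPoly := by
  rw [diagram_eq G [i, j] (by simp [hij])]
  rw [rest_congr G [i, j] (Function.update (Function.update s j b) i a) s]
  · simp [hij.symm]
  · intro k hk
    simp only [List.mem_cons, List.not_mem_nil, or_false, not_or] at hk
    simp [hk.1, hk.2]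

/-- the second difference -/
theorem DD_eq {i j : Fin n} (hij : i ≠ j) (s : Fin n → Bool) :
    D j (D i (F G)) s = 32 * moment 0 (⟨sm (G.crossing j) ++ (sm (G.crossing i) ++ []),
      rest G [i, j] s⟩ : Diagram (Fin (2 * n))).fPoly - 128 := by
  have h0 := congrArg (moment 2) (skein2 [] (G.crossing i) (G.crossing j) (rest G [i, j] s))
  rw [moment_add, m_sub, m_sub, T_mul2, T_mul2, mul2] at h0
  have z0 : moment 0 ((T (-2) - T 2 : ℤ[T;T⁻¹]) ^ 2) = 0 := by
    rw [pow_two, mul0, m_sub, m_T, m_T]; norm_num
  have z1 : moment 1 ((T (-2) - T 2 : ℤ[T;T⁻¹]) ^ 2) = 0 := by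
    rw [pow_two, mul1, m_sub, m_sub, m_T, m_T, m_T, m_T]; norm_num
  have z2 : moment 2 ((T (-2) - T 2 : ℤ[T;T⁻¹]) ^ 2) = 32 := by
    rw [pow_two, mul2, m_sub, m_sub, m_sub, m_T, m_T, m_T, m_T, m_T, m_T]; norm_num
  rw [z0, z1, z2] at h0
  have e : ∀ a b : Bool, (⟨[], (if a then positive (G.crossing i) else negative (G.crossing i)) ::
        (if b then positive (G.crossing j) else negative (G.crossing j)) :: rest G [i, j] s⟩ :
      Diagram (Fin (2 * n))).fPoly = (G.diagram (Function.update (Function.update s j b) i a)).fPoly :=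
    fun a b => (fP2 G hij s a b).symm
  have e1 := e true true
  have e2 := e true false
  have e3 := e false true
  have e4 := e false false
  simp only [if_true, if_false, Bool.false_eq_true] at e1 e2 e3 e4
  rw [e1, e2, e3, e4] at h0
  have k1 := knot01 G i (Function.update (Function.update s j true) i true)
  have k4 := knot01 G i (Function.update (Function.update s j false) i false)
  rw [k1.1, k1.2, k4.1, k4.2] at h0
  unfold D F
  linarith

theorem DD_bd {i j : Fin n} (hij : i ≠ j) (s : Fin n → Bool) : |D j (D i (F G)) s| ≤ 640 := by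
  rw [DD_eq G hij s]
  have h := m0_smooth G hij s
  rw [abs_le] at h ⊢
  constructor <;> linarith [h.1, h.2]

end Pool.Agent.D0H73.QLO.Kn
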