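import Pool.Agent.D0H73.QLO.Zero
import Pool.Agent.D0H73.QLO.Knot

set_option autoImplicit false
set_option linter.unusedSectionVars false

/-! The quadratic Littlewood-Offord inequality, and the application to the diagrams with a given shadow. -/

namespace Pool.Agent.D0H73.QLO

open Finset Pool.Agent.R811.Cross

variable {ι : Type} [Fintype ι] [DecidableEq ι]

theorem DD_comm {i j : ι} (hij : i ≠ j) (H : (ι → Bool) → ℤ) : D i (D j H) = D j (D i H) := by
  funext s
  unfold D
  simp only [Function.update_comm hij]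
  ring

/-- the system of a function with bounded constant second differences -/
noncomputable def mkSys {ν : ℕ} (F : (ι → Bool) → ℤ) (u w : Fin ν → ι)
    (hinj : Function.Injective (Sum.elim u w))
    (h3 : ∀ i j, i ≠ j → ∀ x y, D j (D i F) x = D j (D i F) y)
    (hne : ∀ k x, D (u k) (D (w k) F) x ≠ 0) (B : ℝ) (hB : 1 ≤ B)
    (hb : ∀ i j, i ≠ j → ∀ x, |((D j (D i F) x : ℤ) : ℝ)| ≤ B) : Sys ι (Fin ν ⊕ Fin ν) where
  F := F
  e := Sum.elim u w
  inj := hinj
  nb := fun k => univ.filter (fun l => l ≠ k ∧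
    D (Sum.elim u w l) (D (Sum.elim u w k) F) (fun _ => true) ≠ 0)
  B := B
  hB := hB
  pos := by
    intro k
    rw [Nat.one_le_iff_ne_zero, Finset.card_ne_zero]
    refine ⟨k.swap, Finset.mem_filter.2 ⟨Finset.mem_univ _, ?_, ?_⟩⟩
    · rcases k with k | k <;> simp
    · rcases k with k | k
      · have hne' : u k ≠ w k := fun h => by
          have := hinj (a₁ := Sum.inl k) (a₂ := Sum.inr k) h
          cases this
        show D (w k) (D (u k) F) _ ≠ 0
        rw [DD_comm hne'.symm]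
        exact hne k _
      · exact hne k _
  zero := by
    intro k l hl x
    by_cases hlk : l = k
    · subst hlk
      exact D_flip_self _ _ _
    · have h0 : D (Sum.elim u w l) (D (Sum.elim u w k) F) (fun _ => true) = 0 := by
        by_contra h
        exact hl (Finset.mem_filter.2 ⟨Finset.mem_univ _, hlk, h⟩)
      have hne' : Sum.elim u w k ≠ Sum.elim u w l := fun h => hlk (hinj h).symm
      have h1 := D_sg (Sum.elim u w l) (D (Sum.elim u w k) F) x
      rw [h3 _ _ hne' x (fun _ => true), h0, mul_zero] at h1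
      omega
  bd := by
    intro k l x
    by_cases hlk : l = k
    · subst hlk
      rw [D_flip_self, sub_self, abs_zero]; linarith
    · have hne' : Sum.elim u w k ≠ Sum.elim u w l := fun h => hlk (hinj h).symm
      have h1 := D_sg (Sum.elim u w l) (D (Sum.elim u w k) F) x
      have h2 : ((D (Sum.elim u w k) F x : ℤ) : ℝ) - (D (Sum.elim u w k) F (flip (Sum.elim u w l) x) : ℤ) =
          (sg (x (Sum.elim u w l)) : ℝ) * (D (Sum.elim u w l) (D (Sum.elim u w k) F) x : ℤ) := by
        exact_mod_cast h1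
      rw [h2, abs_mul]
      have h4 : |((sg (x (Sum.elim u w l)) : ℤ) : ℝ)| = 1 := by
        rcases sg_pm (x (Sum.elim u w l)) with h | h <;> rw [h] <;> norm_num
      rw [h4, one_mul]
      exact hb _ _ hne' x
  lo := by
    intro k R hR
    set nb : Finset (Fin ν ⊕ Fin ν) := univ.filter (fun l => l ≠ k ∧
      D (Sum.elim u w l) (D (Sum.elim u w k) F) (fun _ => true) ≠ 0) with hnb
    have h := lo_abs (D (Sum.elim u w k) F) (nb.image (Sum.elim u w)) ?_ ?_ R hR
    · rw [Finset.card_image_of_injective _ hinj] at h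
      exact h
    · intro j hj x y
      obtain ⟨l, hl, rfl⟩ := Finset.mem_image.1 hj
      have hl' := (Finset.mem_filter.1 hl).2
      exact h3 _ _ (fun h => hl'.1 (hinj h).symm) x y
    · intro j hj x
      obtain ⟨l, hl, rfl⟩ := Finset.mem_image.1 hj
      have hl' := (Finset.mem_filter.1 hl).2
      rw [h3 _ _ (fun h => hl'.1 (hinj h).symm) x (fun _ => true)]
      exact hl'.2

/-- **the quadratic Littlewood-Offord inequality**, bounded coefficients -/
theorem quadLO {ν : ℕ} (F : (ι → Bool) → ℤ) (c : ℤ) (u w : Fin ν → ι)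
    (hinj : Function.Injective (Sum.elim u w))
    (h3 : ∀ i j, i ≠ j → ∀ x y, D j (D i F) x = D j (D i F) y)
    (hne : ∀ k x, D (u k) (D (w k) F) x ≠ 0) (B : ℝ) (hB : 1 ≤ B)
    (hb : ∀ i j, i ≠ j → ∀ x, |((D j (D i F) x : ℤ) : ℝ)| ≤ B) :
    (ν : ℝ) * ((univ.filter (fun x => F x = c)).card : ℝ) ^ 2 ≤
      21000000 * B ^ 4 * ((Nat.log 2 (2 * ν) : ℝ) + 2) ^ 7 * 4 ^ Fintype.card ι := by
  set P := mkSys F u w hinj h3 hne B hB hb with hP
  have hPF : P.F = F := rfl
  have h := P.level Sum.swap (Function.Involutive.injective Sum.swap_swap) (fun k x => by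
    intro heq
    have e1 : P.L k (flip (P.e (Sum.swap k)) x) = P.L k x := heq
    unfold Sys.L at e1
    have e2 : D (P.e k) P.F (flip (P.e (Sum.swap k)) x) = D (P.e k) P.F x := by exact_mod_cast e1
    have h1 := D_sg (P.e (Sum.swap k)) (D (P.e k) P.F) x
    rw [e2, sub_self] at h1
    have h2 : D (P.e (Sum.swap k)) (D (P.e k) P.F) x = 0 := by
      rcases sg_pm (x (P.e (Sum.swap k))) with hs | hs <;> rw [hs] at h1 <;> omega
    rcases k with k | k
    · have hne' : u k ≠ w k := fun h => by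
        have := hinj (a₁ := Sum.inl k) (a₂ := Sum.inr k) h
        cases this
      have h4 : D (w k) (D (u k) F) x = 0 := h2
      rw [DD_comm hne'.symm] at h4
      exact hne k x h4
    · exact hne k x h2) c
  have hcc : P.cc = 2 * ν := by
    unfold Sys.cc
    rw [Fintype.card_sum, Fintype.card_fin]; push_cast; ring
  have hcard : Fintype.card (Fin ν ⊕ Fin ν) = 2 * ν := by
    rw [Fintype.card_sum, Fintype.card_fin]; ring
  have hN : P.N ^ 2 = 4 ^ Fintype.card ι := by
    unfold Sys.N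
    rw [← pow_mul, mul_comm, pow_mul]; norm_num
  have hPB : P.B = B := rfl
  rw [hcc, hcard, hN, hPB, hPF] at h
  linarith

/-- the logarithm -/
theorem log_le {ν : ℕ} (hν : 1 ≤ ν) : (Nat.log 2 (2 * ν) : ℝ) + 2 ≤ 3 * (1 + Real.log ν) := by
  have h1 : (2 : ℝ) ^ Nat.log 2 (2 * ν) ≤ 2 * ν := by
    exact_mod_cast Nat.pow_log_le_self 2 (by omega : 2 * ν ≠ 0)
  have hν' : (1 : ℝ) ≤ ν := by exact_mod_cast hν
  have h2 := Real.log_le_log (by positivity) h1
  rw [Real.log_pow, Real.log_mul (by norm_num) (by linarith)] at h2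
  have h3 : (0.6931471803 : ℝ) < Real.log 2 := Real.log_two_gt_d9
  have h4 : Real.log 2 < (0.6931471808 : ℝ) := Real.log_two_lt_d9
  have h5 : 0 ≤ Real.log ν := Real.log_nonneg hν'
  have h6 : 0 ≤ (Nat.log 2 (2 * ν) : ℝ) := by positivity
  by_contra hcon
  rw [not_le] at hcon
  -- log2(2ν) > 1 + 3 log ν
  have h7 : 1 + 3 * Real.log ν < (Nat.log 2 (2 * ν) : ℝ) := by linarith
  have h8 : (1 + 3 * Real.log ν) * Real.log 2 < (Nat.log 2 (2 * ν) : ℝ) * Real.log 2 :=
    mul_lt_mul_of_pos_right h7 (by linarith)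
  nlinarith

/-- the form with the natural logarithm -/
theorem quadLO' {ν : ℕ} (F : (ι → Bool) → ℤ) (c : ℤ) (u w : Fin ν → ι)
    (hinj : Function.Injective (Sum.elim u w))
    (h3 : ∀ i j, i ≠ j → ∀ x y, D j (D i F) x = D j (D i F) y)
    (hne : ∀ k x, D (u k) (D (w k) F) x ≠ 0) (B : ℝ) (hB : 1 ≤ B)
    (hb : ∀ i j, i ≠ j → ∀ x, |((D j (D i F) x : ℤ) : ℝ)| ≤ B) :
    (ν : ℝ) * ((univ.filter (fun x => F x = c)).card : ℝ) ^ 2 ≤
      (21000000 * 3 ^ 7 * B ^ 4) * (1 + Real.log ν) ^ 7 * 4 ^ Fintype.card ι := by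
  rcases Nat.eq_zero_or_pos ν with h0 | h0
  · subst h0
    simp only [Nat.cast_zero, zero_mul, Real.log_zero, add_zero, one_pow]
    positivity
  refine (quadLO F c u w hinj h3 hne B hB hb).trans ?_
  have h1 := pow_le_pow_left₀ (by positivity) (log_le h0) 7
  rw [mul_pow] at h1
  calc 21000000 * B ^ 4 * ((Nat.log 2 (2 * ν) : ℝ) + 2) ^ 7 * 4 ^ Fintype.card ι
      ≤ 21000000 * B ^ 4 * (3 ^ 7 * (1 + Real.log ν) ^ 7) * 4 ^ Fintype.card ι := by
        refine mul_le_mul_of_nonneg_right (mul_le_mul_of_nonneg_left h1 (by positivity)) (by positivity)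
    _ = _ := by ring

namespace Kn

open LaurentPolynomial Pool.Agent.H891R2.Jones Pool.Agent.H832R3.VJ

variable {n : ℕ} (G : Shadow n)

theorem antiQ {ν : ℕ} (u w : Fin ν → Fin n) (hinj : Function.Injective (Sum.elim u w))
    (h : ∀ k, G.Interlaced (u k) (w k)) (g : ℤ[T;T⁻¹]) [DecidablePred (fun s : Fin n → Bool =>
      (T 1 - 1 : ℤ[T;T⁻¹]) ^ 3 ∣ (G.diagram s).fPoly - g)] :
    (ν : ℝ) * ((Finset.univ.filter (fun s : Fin n → Bool =>
      (T 1 - 1 : ℤ[T;T⁻¹]) ^ 3 ∣ (G.diagram s).fPoly - g)).card : ℝ) ^ 2 ≤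
      (21000000 * 3 ^ 7 * 640 ^ 4) * (1 + Real.log ν) ^ 7 * 4 ^ n := by
  classical
  have h1 := quadLO' (F G) (moment 2 g) u w hinj (fun i j hij x y => D2_const G hij x y)
    (fun k x => by
      have hne := (ne_of_interlaced G (h k)).symm
      rw [D_comm hne.symm]
      exact D2 G (h k) x) 640 (by norm_num) (fun i j hij x => by
        have := DD_bd G hij x
        have h2 : |((D j (D i (F G)) x : ℤ) : ℝ)| = ((|D j (D i (F G)) x| : ℤ) : ℝ) := by push_cast; rfl
        rw [h2]
        exact_mod_cast this)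
  rw [Fintype.card_fin] at h1
  have hsub : (Finset.univ.filter (fun s : Fin n → Bool =>
      (T 1 - 1 : ℤ[T;T⁻¹]) ^ 3 ∣ (G.diagram s).fPoly - g)).card ≤
      (Finset.univ.filter (fun s => F G s = moment 2 g)).card := by
    apply Finset.card_le_card
    intro s hs
    rw [Finset.mem_filter] at hs ⊢
    refine ⟨hs.1, ?_⟩
    have h2 := moment_of_dvd 2 _ hs.2
    rw [m_sub] at h2
    unfold F
    omega
  refine le_trans ?_ h1
  refine mul_le_mul_of_nonneg_left (pow_le_pow_left₀ (by positivity) ?_ 2) (by positivity)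
  exact_mod_cast hsub

end Kn

end Pool.Agent.D0H73.QLO
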