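import Pool.Agent.D0H73.QLO.Cube
import Pool.Agent.D0H73.QLO.Cut

set_option autoImplicit false
set_option linter.unusedSectionVars false

/-! Functions on the cube with bounded constant second differences. -/

namespace Pool.Agent.D0H73.QLO

open Finset Pool.Agent.R811.Cross

/-- a function on the cube, some directions, the neighbours of a direction -/
structure Sys (ι κ : Type) [Fintype ι] [DecidableEq ι] [Fintype κ] [DecidableEq κ] where
  F : (ι → Bool) → ℤ
  e : κ → ι
  inj : Function.Injective e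
  nb : κ → Finset κ
  B : ℝ
  hB : 1 ≤ B
  pos : ∀ k, 1 ≤ (nb k).card
  zero : ∀ k l, l ∉ nb k → ∀ x, D (e k) F (flip (e l) x) = D (e k) F x
  bd : ∀ k l x, |(D (e k) F x : ℝ) - D (e k) F (flip (e l) x)| ≤ B
  lo : ∀ k (R : ℝ), 0 ≤ R → ((univ.filter (fun x => |(D (e k) F x : ℝ)| ≤ R)).card : ℝ) *
    √((nb k).card : ℝ) ≤ (2 * R + 1) * (2 * 2 ^ Fintype.card ι)

variable {ι κ : Type} [Fintype ι] [DecidableEq ι] [Fintype κ] [DecidableEq κ]

namespace Sys

variable (P : Sys ι κ)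

/-- the first difference -/
noncomputable def L (k : κ) (x : ι → Bool) : ℝ := (D (P.e k) P.F x : ℝ)

theorem L_self (k : κ) (x : ι → Bool) : P.L k (flip (P.e k) x) = P.L k x := by
  unfold L; rw [D_flip_self]

theorem L_zero {k l : κ} (h : l ∉ P.nb k) (x : ι → Bool) : P.L k (flip (P.e l) x) = P.L k x := by
  unfold L; rw [P.zero k l h]

theorem L_bd (k l : κ) (x : ι → Bool) : |P.L k x - P.L k (flip (P.e l) x)| ≤ P.B := P.bd k l x

theorem B_pos : 0 < P.B := lt_of_lt_of_le one_pos P.hB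

/-- the square root of the number of the neighbours -/
noncomputable def sz (k : κ) : ℝ := √((P.nb k).card : ℝ)

theorem sz_sq (k : κ) : P.sz k ^ 2 = ((P.nb k).card : ℝ) := Real.sq_sqrt (by positivity)

theorem one_le_sz (k : κ) : 1 ≤ P.sz k := by
  unfold sz
  rw [Real.one_le_sqrt]
  exact_mod_cast P.pos k

theorem sz_pos (k : κ) : 0 < P.sz k := lt_of_lt_of_le one_pos (P.one_le_sz k)

/-- the scale `b` -/
noncomputable def rr (b : ℕ) (k : κ) : ℝ := P.sz k / 2 ^ b

theorem rr_pos (b : ℕ) (k : κ) : 0 < P.rr b k := div_pos (P.sz_pos k) (by positivity)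

theorem rr_mul (b : ℕ) (k : κ) : P.rr b k * 2 ^ b = P.sz k := by
  unfold rr; field_simp

theorem rr_sq (b : ℕ) (k : κ) : ((P.nb k).card : ℝ) / P.rr b k ^ 2 = 4 ^ b := by
  have h := P.rr_pos b k
  have h1 : ((P.nb k).card : ℝ) = P.rr b k ^ 2 * 4 ^ b := by
    rw [← P.sz_sq k, ← P.rr_mul b k, mul_pow, ← pow_mul, mul_comm b 2, pow_mul]; norm_num
  rw [h1]
  field_simp

/-- the total number of points -/
noncomputable def N (_P : Sys ι κ) : ℝ := 2 ^ Fintype.card ι

theorem N_pos : 0 < P.N := by unfold N; positivity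

theorem cnt (b : ℕ) {k : κ} (hk : 1 ≤ P.rr b k) (a : ℝ) (ha : 0 ≤ a) :
    ((univ.filter (fun x => |P.L k x| ≤ 2 * P.rr b k + a)).card : ℝ) ≤ (4 * a + 10) * P.N / 2 ^ b := by
  have h := P.lo k (2 * P.rr b k + a) (by linarith)
  have e : √((P.nb k).card : ℝ) = P.rr b k * 2 ^ b := by rw [P.rr_mul]; rfl
  rw [e] at h
  have hr := P.rr_pos b k
  rw [le_div_iff₀ (by positivity)]
  have h2 : (2 * (2 * P.rr b k + a) + 1) ≤ (5 + 2 * a) * P.rr b k := by nlinarith
  have h3 : ((univ.filter (fun x => |P.L k x| ≤ 2 * P.rr b k + a)).card : ℝ) * (P.rr b k * 2 ^ b) ≤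
      (5 + 2 * a) * P.rr b k * (2 * P.N) :=
    h.trans (mul_le_mul_of_nonneg_right h2 (by have := P.N_pos; unfold N at this; positivity))
  have h4 : P.rr b k * (((univ.filter (fun x => |P.L k x| ≤ 2 * P.rr b k + a)).card : ℝ) * 2 ^ b) ≤
      P.rr b k * ((4 * a + 10) * P.N) := by nlinarith
  exact le_of_mul_le_mul_left h4 hr

/-- the directions which can be in class `b` -/
noncomputable def Ib (b : ℕ) : Finset κ := univ.filter (fun k => 1 ≤ P.rr b k)

theorem mem_Ib {b : ℕ} {k : κ} : k ∈ P.Ib b ↔ 1 ≤ P.rr b k := by unfold Ib; simp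

/-- the mean of the difference over the two values of a bit -/
noncomputable def Lm (i l : κ) (x : ι → Bool) : ℝ := (P.L l x + P.L l (flip (P.e i) x)) / 2

theorem Lm_self (i l : κ) (x : ι → Bool) : P.Lm i l (flip (P.e i) x) = P.Lm i l x := by
  unfold Lm; rw [Pool.Agent.R811.Cross.flip_flip]; ring

theorem Lm_near (i l : κ) (x : ι → Bool) : |P.Lm i l x - P.L l x| ≤ P.B := by
  have h := P.L_bd l i x
  have hB := P.B_pos
  unfold Lm
  rw [abs_le] at h ⊢
  constructor <;> linarith [h.1, h.2]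

theorem Lm_bd (i l j : κ) (x : ι → Bool) : |P.Lm i l x - P.Lm i l (flip (P.e j) x)| ≤ P.B := by
  have h := P.L_bd l j x
  have h' := P.L_bd l j (flip (P.e i) x)
  unfold Lm
  rw [flip_comm (P.e i) (P.e j)]
  rw [abs_le] at h h' ⊢
  constructor <;> linarith [h.1, h.2, h'.1, h'.2]

theorem Lm_zero {i l j : κ} (h : j ∉ P.nb l) (x : ι → Bool) :
    P.Lm i l (flip (P.e j) x) = P.Lm i l x := by
  unfold Lm
  rw [flip_comm (P.e i) (P.e j), P.L_zero h, P.L_zero h]

/-- the localised indicator -/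
noncomputable def zt (b : ℕ) (i l : κ) (x : ι → Bool) : ℝ := c01 (2 - |P.Lm i l x| / (P.rr b l + P.B))

theorem zt_diff (b : ℕ) (i l j : κ) (x : ι → Bool) :
    |P.zt b i l x - P.zt b i l (flip (P.e j) x)| ≤ if j ∈ P.nb l then P.B / P.rr b l else 0 := by
  have hr := P.rr_pos b l
  have hB := P.B_pos
  by_cases h : j ∈ P.nb l
  · rw [if_pos h]
    unfold zt
    refine (c01_lip _ _).trans ?_
    have e : (2 - |P.Lm i l x| / (P.rr b l + P.B)) - (2 - |P.Lm i l (flip (P.e j) x)| / (P.rr b l + P.B)) =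
        (|P.Lm i l (flip (P.e j) x)| - |P.Lm i l x|) / (P.rr b l + P.B) := by ring
    rw [e, abs_div, abs_of_pos (by linarith : 0 < P.rr b l + P.B)]
    have h1 := abs_abs_sub_abs_le_abs_sub (P.Lm i l (flip (P.e j) x)) (P.Lm i l x)
    rw [abs_sub_comm (P.Lm i l (flip (P.e j) x))] at h1
    exact div_le_div₀ hB.le (h1.trans (P.Lm_bd i l j x)) hr (by linarith)
  · rw [if_neg h]
    unfold zt
    rw [P.Lm_zero h, sub_self, abs_zero]

theorem zt_self (b : ℕ) (i l : κ) (x : ι → Bool) : P.zt b i l (flip (P.e i) x) = P.zt b i l x := by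
  unfold zt; rw [P.Lm_self]

theorem zt_one {b : ℕ} {l : κ} {x : ι → Bool} (h : |P.L l x| ≤ P.rr b l) (i : κ) :
    P.zt b i l x = 1 := by
  unfold zt
  apply c01_eq_one
  have hr := P.rr_pos b l
  have hB := P.B_pos
  have h1 := P.Lm_near i l x
  have h2 : |P.Lm i l x| ≤ P.rr b l + P.B := by
    have h3 : |P.Lm i l x| ≤ |P.L l x| + |P.Lm i l x - P.L l x| := by
      have := abs_add_le (P.L l x) (P.Lm i l x - P.L l x)
      rwa [add_sub_cancel] at this
    linarith
  have h4 : |P.Lm i l x| / (P.rr b l + P.B) ≤ 1 := (div_le_one (by linarith)).2 h2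
  linarith

theorem zt_le (b : ℕ) (i l : κ) (x : ι → Bool) :
    P.zt b i l x ≤ if |P.L l x| ≤ 2 * P.rr b l + 3 * P.B then 1 else 0 := by
  split_ifs with h
  · exact c01_le_one _
  · unfold zt
    rw [c01_eq_zero]
    have hr := P.rr_pos b l
    have hB := P.B_pos
    have h1 := P.Lm_near i l x
    have h2 : 2 * (P.rr b l + P.B) ≤ |P.Lm i l x| := by
      have h3 : |P.L l x| ≤ |P.Lm i l x| + |P.Lm i l x - P.L l x| := by
        have := abs_add_le (P.Lm i l x) (-(P.Lm i l x - P.L l x))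
        rw [abs_neg] at this
        have e : P.Lm i l x + -(P.Lm i l x - P.L l x) = P.L l x := by ring
        rwa [e] at this
      rw [not_le] at h
      linarith
    have h4 : 2 ≤ |P.Lm i l x| / (P.rr b l + P.B) := (le_div_iff₀ (by linarith)).2 h2
    linarith

/-- the number of the directions in class `b`, smoothed -/
noncomputable def Fi (b : ℕ) (i : κ) (x : ι → Bool) : ℝ := ∑ l ∈ P.Ib b, P.zt b i l x

theorem Fi_self (b : ℕ) (i : κ) (x : ι → Bool) : P.Fi b i (flip (P.e i) x) = P.Fi b i x := by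
  unfold Fi; exact Finset.sum_congr rfl fun l _ => P.zt_self b i l x

/-- the number of the directions -/
noncomputable def cc (_P : Sys ι κ) : ℝ := Fintype.card κ

theorem cc_nonneg : 0 ≤ P.cc := by unfold cc; positivity

theorem card_Ib (b : ℕ) : ((P.Ib b).card : ℝ) ≤ P.cc := by
  unfold cc; exact_mod_cast Finset.card_le_univ _

theorem sumF (b : ℕ) (i : κ) (x : ι → Bool) :
    ∑ j, (P.Fi b i x - P.Fi b i (flip (P.e j) x)) ^ 2 ≤ P.cc ^ 2 * P.B ^ 2 * 4 ^ b := by
  have hcc := P.cc_nonneg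
  have h1 : ∀ j, (P.Fi b i x - P.Fi b i (flip (P.e j) x)) ^ 2 ≤
      P.cc * ∑ l ∈ P.Ib b, (if j ∈ P.nb l then (P.B / P.rr b l) ^ 2 else 0) := by
    intro j
    have h2 : |P.Fi b i x - P.Fi b i (flip (P.e j) x)| ≤
        ∑ l ∈ P.Ib b, (if j ∈ P.nb l then P.B / P.rr b l else 0) := by
      unfold Fi
      rw [← Finset.sum_sub_distrib]
      exact (Finset.abs_sum_le_sum_abs _ _).trans (Finset.sum_le_sum fun l _ => P.zt_diff b i l j x)
    have h3 : (P.Fi b i x - P.Fi b i (flip (P.e j) x)) ^ 2 ≤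
        (∑ l ∈ P.Ib b, (if j ∈ P.nb l then P.B / P.rr b l else 0)) ^ 2 := by
      rw [← sq_abs]
      exact pow_le_pow_left₀ (abs_nonneg _) h2 2
    refine h3.trans (sq_sum_le_card_mul_sum_sq.trans ?_)
    have h4 : ∑ l ∈ P.Ib b, (if j ∈ P.nb l then P.B / P.rr b l else 0) ^ 2 =
        ∑ l ∈ P.Ib b, (if j ∈ P.nb l then (P.B / P.rr b l) ^ 2 else 0) := by
      refine Finset.sum_congr rfl fun l _ => ?_
      split_ifs <;> norm_num
    rw [h4]
    refine mul_le_mul_of_nonneg_right (P.card_Ib b) (Finset.sum_nonneg fun l _ => ?_)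
    split_ifs <;> positivity
  calc ∑ j, (P.Fi b i x - P.Fi b i (flip (P.e j) x)) ^ 2
      ≤ ∑ j, P.cc * ∑ l ∈ P.Ib b, (if j ∈ P.nb l then (P.B / P.rr b l) ^ 2 else 0) :=
        Finset.sum_le_sum fun j _ => h1 j
    _ = P.cc * ∑ l ∈ P.Ib b, ∑ j, (if j ∈ P.nb l then (P.B / P.rr b l) ^ 2 else 0) := by
        rw [← Finset.mul_sum, Finset.sum_comm]
    _ = P.cc * ∑ _l ∈ P.Ib b, P.B ^ 2 * 4 ^ b := by
        congr 1
        refine Finset.sum_congr rfl fun l _ => ?_
        rw [Finset.sum_ite_mem, Finset.univ_inter, Finset.sum_const, nsmul_eq_mul, div_pow,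
          ← P.rr_sq b l]
        ring
    _ = P.cc * (((P.Ib b).card : ℝ) * (P.B ^ 2 * 4 ^ b)) := by rw [Finset.sum_const, nsmul_eq_mul]
    _ ≤ P.cc * (P.cc * (P.B ^ 2 * 4 ^ b)) := by
        refine mul_le_mul_of_nonneg_left (mul_le_mul_of_nonneg_right (P.card_Ib b) (by positivity)) hcc
    _ = _ := by ring

/-- the cut-off -/
noncomputable def chi (b : ℕ) (K : ℝ) (i : κ) (x : ι → Bool) : ℝ := c01 (2 * P.Fi b i x / K - 1)

theorem sumchi (b : ℕ) {K : ℝ} (hK : 0 < K) (i : κ) (x : ι → Bool) :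
    ∑ j, (P.chi b K i x - P.chi b K i (flip (P.e j) x)) ^ 2 ≤ 4 / K ^ 2 * (P.cc ^ 2 * P.B ^ 2 * 4 ^ b) := by
  refine le_trans ?_ (mul_le_mul_of_nonneg_left (P.sumF b i x) (by positivity))
  rw [Finset.mul_sum]
  refine Finset.sum_le_sum fun j _ => ?_
  have h := c01_lip (2 * P.Fi b i x / K - 1) (2 * P.Fi b i (flip (P.e j) x) / K - 1)
  have e : (2 * P.Fi b i x / K - 1) - (2 * P.Fi b i (flip (P.e j) x) / K - 1) =
      2 / K * (P.Fi b i x - P.Fi b i (flip (P.e j) x)) := by ring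
  rw [e] at h
  have h2 := pow_le_pow_left₀ (abs_nonneg _) h 2
  rw [sq_abs, sq_abs, mul_pow, div_pow] at h2
  unfold chi
  refine h2.trans (le_of_eq ?_)
  norm_num

/-- the test functions -/
noncomputable def th (b : ℕ) (K : ℝ) (i : κ) (x : ι → Bool) : ℝ :=
  if i ∈ P.Ib b then psi (P.L i x / P.rr b i) * P.chi b K i x else 0

theorem th_self (b : ℕ) (K : ℝ) (i : κ) (x : ι → Bool) :
    P.th b K i (flip (P.e i) x) = P.th b K i x := by
  unfold th chi
  rw [P.L_self, P.Fi_self]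

theorem th_sign (b : ℕ) (K : ℝ) (i : κ) (x : ι → Bool) : 0 ≤ P.th b K i x * P.L i x := by
  unfold th
  split_ifs with h
  · have hr := P.rr_pos b i
    have h1 := psi_mul_nonneg (P.L i x / P.rr b i)
    have h2 : 0 ≤ P.chi b K i x := c01_nonneg _
    have e : psi (P.L i x / P.rr b i) * P.chi b K i x * P.L i x =
        (psi (P.L i x / P.rr b i) * (P.L i x / P.rr b i)) * (P.rr b i * P.chi b K i x) := by
      field_simp
    rw [e]
    positivity
  · simp

theorem th_zero (b : ℕ) (K : ℝ) (i : κ) (x : ι → Bool) (h : P.L i x = 0) : P.th b K i x = 0 := by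
  unfold th
  rw [h, zero_div, psi_zero, zero_mul]
  simp

theorem th_abs (b : ℕ) (K : ℝ) (i : κ) (x : ι → Bool) : |P.th b K i x| ≤ 1 := by
  unfold th
  split_ifs with h
  · rw [abs_mul]
    have h1 := psi_abs_le (P.L i x / P.rr b i)
    have h2 : |P.chi b K i x| ≤ 1 := by
      unfold chi
      rw [abs_of_nonneg (c01_nonneg _)]; exact c01_le_one _
    calc _ ≤ (1 : ℝ) * 1 := mul_le_mul h1 h2 (abs_nonneg _) (by norm_num)
      _ = 1 := by norm_num
  · simp

theorem th_far {b : ℕ} {K : ℝ} {i : κ} {x : ι → Bool} (h : 2 * P.rr b i ≤ |P.L i x|) :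
    P.th b K i x = 0 := by
  unfold th
  have hr := P.rr_pos b i
  rw [psi_far, zero_mul]
  · simp
  · rw [abs_div, abs_of_pos hr, le_div_iff₀ hr]; exact h

theorem sumpsi (b : ℕ) (i : κ) (x : ι → Bool) :
    ∑ j, (psi (P.L i x / P.rr b i) - psi (P.L i (flip (P.e j) x) / P.rr b i)) ^ 2 ≤
      4 * P.B ^ 2 * 4 ^ b := by
  have hr := P.rr_pos b i
  have hB := P.B_pos
  have h1 : ∀ j, (psi (P.L i x / P.rr b i) - psi (P.L i (flip (P.e j) x) / P.rr b i)) ^ 2 ≤
      if j ∈ P.nb i then 4 * (P.B / P.rr b i) ^ 2 else 0 := by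
    intro j
    by_cases h : j ∈ P.nb i
    · rw [if_pos h]
      have h2 := psi_lip (P.L i x / P.rr b i) (P.L i (flip (P.e j) x) / P.rr b i)
      have e : P.L i x / P.rr b i - P.L i (flip (P.e j) x) / P.rr b i =
          (P.L i x - P.L i (flip (P.e j) x)) / P.rr b i := by ring
      rw [e, abs_div, abs_of_pos hr] at h2
      have h3 : |psi (P.L i x / P.rr b i) - psi (P.L i (flip (P.e j) x) / P.rr b i)| ≤
          2 * (P.B / P.rr b i) :=
        h2.trans (mul_le_mul_of_nonneg_left (div_le_div_of_nonneg_right (P.L_bd i j x) hr.le) (by norm_num))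
      have h4 := pow_le_pow_left₀ (abs_nonneg _) h3 2
      rw [sq_abs, mul_pow] at h4
      refine h4.trans (le_of_eq ?_)
      norm_num
    · rw [if_neg h, P.L_zero h]; simp
  refine (Finset.sum_le_sum fun j _ => h1 j).trans (le_of_eq ?_)
  rw [Finset.sum_ite_mem, Finset.univ_inter, Finset.sum_const, nsmul_eq_mul, div_pow, ← P.rr_sq b i]
  ring

theorem sumth (b : ℕ) {K : ℝ} (hK : 0 < K) (i : κ) (x : ι → Bool) :
    ∑ j, (P.th b K i x - P.th b K i (flip (P.e j) x)) ^ 2 ≤
      if 1 ≤ P.rr b i ∧ |P.L i x| ≤ 2 * P.rr b i + P.B then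
        8 * P.B ^ 2 * 4 ^ b * (1 + P.cc ^ 2 / K ^ 2) else 0 := by
  by_cases hi : i ∈ P.Ib b
  · have hi' := P.mem_Ib.1 hi
    by_cases hx : |P.L i x| ≤ 2 * P.rr b i + P.B
    · rw [if_pos ⟨hi', hx⟩]
      have h1 : ∀ j, (P.th b K i x - P.th b K i (flip (P.e j) x)) ^ 2 ≤
          2 * (psi (P.L i x / P.rr b i) - psi (P.L i (flip (P.e j) x) / P.rr b i)) ^ 2 +
          2 * (P.chi b K i x - P.chi b K i (flip (P.e j) x)) ^ 2 := by
        intro j
        unfold th
        rw [if_pos hi, if_pos hi]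
        set p := psi (P.L i x / P.rr b i)
        set p' := psi (P.L i (flip (P.e j) x) / P.rr b i)
        set c := P.chi b K i x
        set c' := P.chi b K i (flip (P.e j) x)
        have e : p * c - p' * c' = (p - p') * c' + p * (c - c') := by ring
        have hp : p ^ 2 ≤ 1 := by
          have := pow_le_pow_left₀ (abs_nonneg _) (psi_abs_le (P.L i x / P.rr b i)) 2
          rwa [sq_abs, one_pow] at this
        have hc : c' ^ 2 ≤ 1 := by
          have h0 : 0 ≤ c' := c01_nonneg _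
          have h1 : c' ≤ 1 := c01_le_one _
          nlinarith
        have h2 : ((p - p') * c' + p * (c - c')) ^ 2 ≤ 2 * ((p - p') * c') ^ 2 + 2 * (p * (c - c')) ^ 2 := by
          nlinarith [sq_nonneg ((p - p') * c' - p * (c - c'))]
        have h3 : ((p - p') * c') ^ 2 ≤ (p - p') ^ 2 := by
          rw [mul_pow]; nlinarith [sq_nonneg (p - p')]
        have h4 : (p * (c - c')) ^ 2 ≤ (c - c') ^ 2 := by
          rw [mul_pow]; nlinarith [sq_nonneg (c - c')]
        rw [e]
        linarith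
      refine (Finset.sum_le_sum fun j _ => h1 j).trans ?_
      rw [Finset.sum_add_distrib, ← Finset.mul_sum, ← Finset.mul_sum]
      have h2 := P.sumpsi b i x
      have h3 := P.sumchi b hK i x
      have e : 8 * P.B ^ 2 * 4 ^ b * (1 + P.cc ^ 2 / K ^ 2) =
          2 * (4 * P.B ^ 2 * 4 ^ b) + 2 * (4 / K ^ 2 * (P.cc ^ 2 * P.B ^ 2 * 4 ^ b)) := by
        field_simp; ring
      rw [e]
      linarith
    · rw [if_neg (fun h => hx h.2)]
      rw [not_le] at hx
      have hB := P.B_pos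
      refine le_of_eq (Finset.sum_eq_zero fun j _ => ?_)
      rw [P.th_far (by linarith), P.th_far]
      · norm_num
      · have h1 := P.L_bd i j x
        have h2 : |P.L i x| ≤ |P.L i (flip (P.e j) x)| + |P.L i x - P.L i (flip (P.e j) x)| := by
          have := abs_add_le (P.L i (flip (P.e j) x)) (P.L i x - P.L i (flip (P.e j) x))
          rwa [add_sub_cancel] at this
        linarith
  · rw [if_neg (fun h => hi (P.mem_Ib.2 h.1))]
    refine le_of_eq (Finset.sum_eq_zero fun j _ => ?_)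
    unfold th
    rw [if_neg hi, if_neg hi]
    norm_num

end Sys

end Pool.Agent.D0H73.QLO
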