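import Pool.Agent.D0H73.QLO.Knot

set_option autoImplicit false
set_option linter.unusedSectionVars false

/-! The shadow of the torus knot `T(2, n)`: the number of the closed curves of the states. -/

namespace Pool.Agent.D0H73.QLO.Kn

open Finset LaurentPolynomial Pool.Agent.H891R2.Jones Pool.Agent.H832R3.VJ Pool.Agent.R811.Cross
open Pool.Agent.Y463.BS (E lp pts cor al X W v Two lp_same lp_join lp_mem lp_congr quot_E W_eq
  m_bracket count_pts_append card_strand knot_moments mem_X Strand E_cons Concl)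

/-- the shadow of the standard diagram of the torus knot `T(2, n)`, `n` odd: one passes through the double
points `0, 1, …, n - 1` and then again through `0, 1, …, n - 1` -/
def torus (n : ℕ) : Shadow n where
  p := fun i => ⟨i, by have := i.2; omega⟩
  q := fun i => ⟨n + i, by have := i.2; omega⟩
  bij := by
    constructor
    · rintro (i | i) (j | j) h
      · simp only [Sum.elim_inl, Fin.mk.injEq] at h
        rw [Fin.ext h]
      · simp only [Sum.elim_inl, Sum.elim_inr, Fin.mk.injEq] at h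
        have := i.2; omega
      · simp only [Sum.elim_inl, Sum.elim_inr, Fin.mk.injEq] at h
        have := j.2; omega
      · simp only [Sum.elim_inr, Fin.mk.injEq] at h
        rw [Fin.ext (by omega : (i : ℕ) = j)]
    · intro e
      by_cases h : (e : ℕ) < n
      · exact ⟨Sum.inl ⟨e, h⟩, Fin.ext rfl⟩
      · refine ⟨Sum.inr ⟨e - n, by have := e.2; omega⟩, Fin.ext ?_⟩
        show n + ((e : ℕ) - n) = e
        omega
  left := fun i => decide ((i : ℕ) % 2 = 0)

theorem torus_p {n : ℕ} (i : Fin n) : ((torus n).p i : ℕ) = i := rfl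
theorem torus_q {n : ℕ} (i : Fin n) : ((torus n).q i : ℕ) = n + i := rfl

theorem torus_interlaced {n : ℕ} {i j : Fin n} (hij : i ≠ j) : (torus n).Interlaced i j := by
  unfold Shadow.Interlaced Shadow.Between
  rw [torus_p, torus_q, torus_p, torus_q]
  have h1 := i.2
  have h2 := j.2
  have h3 : (i : ℕ) ≠ j := fun h => hij (Fin.ext h)
  omega

theorem torus_antiparallel {n : ℕ} (hn : n % 2 = 1) {i j : Fin n} (hij : i ≠ j) :
    ¬ (torus n).Antiparallel i j := by
  rintro ⟨x, x', y, y', h1, h2, h3, h4⟩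
  have hi := i.2
  have hj := j.2
  have h5 : (i : ℕ) ≠ j := fun h => hij (Fin.ext h)
  have e1 := next_val x
  have e2 := next_val y'
  rw [← h3] at e1
  rw [← h4] at e2
  have hp : ∀ k, ((torus n).p k : ℕ) = k := torus_p
  have hq : ∀ k, ((torus n).q k : ℕ) = n + k := torus_q
  rcases h1 with ⟨rfl, rfl⟩ | ⟨rfl, rfl⟩ <;> rcases h2 with ⟨rfl, rfl⟩ | ⟨rfl, rfl⟩ <;>
    simp only [hp, hq] at e1 e2 <;> omega

variable {n : ℕ} (G : Shadow n)

/-- the smoothing according to the directions -/
def orr (k : Fin n) : List (Fin (2 * n) × Fin (2 * n)) :=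
  [(G.q k, next (G.p k)), (next (G.q k), G.p k)]

/-- the other smoothing -/
def unn (k : Fin n) : List (Fin (2 * n) × Fin (2 * n)) :=
  [(G.p k, G.q k), (next (G.p k), next (G.q k))]

/-- the arcs of a state -/
def AA (l : List (Fin n)) (S : Finset (Fin n)) : List (Fin (2 * n) × Fin (2 * n)) :=
  l.flatMap (fun k => if k ∈ S then unn G k else orr G k)

theorem mem_AA {l : List (Fin n)} {S : Finset (Fin n)} {z : Fin (2 * n) × Fin (2 * n)} :
    z ∈ AA G l S ↔ ∃ k ∈ l, z ∈ (if k ∈ S then unn G k else orr G k) := by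
  unfold AA; rw [List.mem_flatMap]

theorem AA_count (l : List (Fin n)) (S : Finset (Fin n)) (e : Fin (2 * n)) :
    (pts (AA G l S)).count e = (l.flatMap (base G)).count e := by
  induction l with
  | nil => rfl
  | cons k l ih =>
    unfold AA at ih ⊢
    rw [List.flatMap_cons, List.flatMap_cons, count_pts_append, List.count_append, ih]
    congr 1
    unfold pts base orr unn
    split_ifs <;> simp [List.count_cons] <;> omega

/-- the list without `i` -/
def ex (i : Fin n) : List (Fin n) := (List.finRange n).filter (fun k => k ∉ [i])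

theorem mem_ex {i k : Fin n} : k ∈ ex i ↔ k ≠ i := by unfold ex; simp

theorem lp_split (i : Fin n) (S : Finset (Fin n)) :
    lp (AA G (List.finRange n) S) = lp ((if i ∈ S then unn G i else orr G i) ++ AA G (ex i) S) := by
  apply lp_mem
  intro z
  rw [List.mem_append, mem_AA, mem_AA]
  constructor
  · rintro ⟨k, _, hz⟩
    by_cases h : k = i
    · subst h; exact Or.inl hz
    · exact Or.inr ⟨k, mem_ex.2 h, hz⟩
  · rintro (hz | ⟨k, _, hz⟩)
    · exact ⟨i, List.mem_finRange i, hz⟩
    · exact ⟨k, List.mem_finRange k, hz⟩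

theorem AA_congr {i : Fin n} {S S' : Finset (Fin n)} (h : ∀ k, k ≠ i → (k ∈ S ↔ k ∈ S')) :
    AA G (ex i) S = AA G (ex i) S' := by
  unfold AA
  refine List.flatMap_congr fun k hk => ?_
  have := h k (mem_ex.1 hk)
  by_cases hS : k ∈ S
  · rw [if_pos hS, if_pos (this.1 hS)]
  · rw [if_neg hS, if_neg (fun h' => hS (this.2 h'))]

theorem concl (i : Fin n) (S : Finset (Fin n)) :
    Concl (AA G (ex i) S) (G.p i) (G.q i) (next (G.p i)) (next (G.q i)) := by
  refine Pool.Agent.Y463.BS.pair _ _ rfl _ _ _ _ ?_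
  intro e
  right
  rw [List.count_append, AA_count]
  have h := (List.Perm.flatMap_right (base G) (perm_rest [i] (by simp))).count_eq e
  rw [two_all] at h
  rw [List.flatMap_append, List.count_append, List.flatMap_cons, List.flatMap_nil, List.append_nil] at h
  have e1 : (base G i).count e = [G.p i, G.q i, next (G.p i), next (G.q i)].count e := rfl
  rw [e1] at h
  unfold ex
  omega

/-- if the two lower points are connected outside -/
theorem lp_step (i : Fin n) (S : Finset (Fin n)) (hi : i ∉ S)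
    (h : E (AA G (ex i) S) (G.p i) (G.q i)) :
    lp (AA G (List.finRange n) (insert i S)) = lp (AA G (List.finRange n) S) + 1 := by
  rw [lp_split G i (insert i S), lp_split G i S, if_pos (Finset.mem_insert_self i S), if_neg hi,
    AA_congr G (i := i) (S := insert i S) (S' := S) (fun k hk => by simp [hk])]
  rcases Pool.Agent.Y463.BS.three _ _ _ _ _ (concl G i S) with ⟨-, -, h1, h2, -, -⟩ | ⟨h1, h2, h3⟩ | ⟨-, -, -, -, -, h6⟩
  · show lp ((G.p i, G.q i) :: (next (G.p i), next (G.q i)) :: AA G (ex i) S) =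
      lp ((G.q i, next (G.p i)) :: (next (G.q i), G.p i) :: AA G (ex i) S) + 1
    omega
  · exfalso
    have h4 := lp_same (L := (next (G.p i), next (G.q i)) :: AA G (ex i) S)
      (Pool.Agent.Y463.BS.E.mono (fun p q hpq => Pool.Agent.Y463.BS.E.of_mem (List.mem_cons_of_mem _ hpq)) h)
    have hc := concl G i S
    rcases hc with ⟨g1, g2, g3⟩ | ⟨g1, g2, g3⟩ | ⟨g1, g2, g3⟩
    · have h5 := lp_same g2
      omega
    · exact g3 h
    · exact g3 h
  · exact absurd h h6

/-! ### walking through the levels -/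

/-- the edge number `t`, modulo `2 n` -/
def pt (n : ℕ) (hn : 0 < n) (t : ℕ) : Fin (2 * n) := ⟨t % (2 * n), Nat.mod_lt _ (by omega)⟩

theorem next_pt (hn : 0 < n) (t : ℕ) : next (pt n hn t) = pt n hn (t + 1) := by
  apply Fin.ext
  show (t % (2 * n) + 1) % (2 * n) = (t + 1) % (2 * n)
  rw [Nat.mod_add_mod]

theorem lvl (hn : 0 < n) (t : ℕ) (k : Fin n) (hk : (k : ℕ) = t % n) :
    (pt n hn t = (torus n).p k ∧ pt n hn (t + n) = (torus n).q k) ∨
      (pt n hn t = (torus n).q k ∧ pt n hn (t + n) = (torus n).p k) := by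
  have h1 : t % (2 * n) = t % n + n * (t / n % 2) := by
    rw [mul_comm 2 n, Nat.mod_mul]
  have h2 : (t + n) % (2 * n) = t % n + n * ((t / n + 1) % 2) := by
    rw [mul_comm 2 n, Nat.mod_mul, Nat.add_mod_right, Nat.add_div_right _ hn]
  rcases Nat.mod_two_eq_zero_or_one (t / n) with h | h
  · left
    constructor
    · apply Fin.ext
      show t % (2 * n) = k
      rw [h1, h, hk]; ring
    · apply Fin.ext
      show (t + n) % (2 * n) = n + k
      have : (t / n + 1) % 2 = 1 := by omega
      rw [h2, this, hk]; ring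
  · right
    constructor
    · apply Fin.ext
      show t % (2 * n) = n + k
      rw [h1, h, hk]; ring
    · apply Fin.ext
      show (t + n) % (2 * n) = k
      have : (t / n + 1) % 2 = 0 := by omega
      rw [h2, this, hk]; ring

theorem E_un {l : List (Fin n)} {S : Finset (Fin n)} {k : Fin n} (hk : k ∈ l) (hS : k ∈ S) :
    E (AA G l S) (G.p k) (G.q k) ∧ E (AA G l S) (next (G.p k)) (next (G.q k)) := by
  constructor <;> refine Pool.Agent.Y463.BS.E.of_mem ((mem_AA G).2 ⟨k, hk, ?_⟩) <;> rw [if_pos hS] <;>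
    unfold unn <;> simp

theorem E_or {l : List (Fin n)} {S : Finset (Fin n)} {k : Fin n} (hk : k ∈ l) (hS : k ∉ S) :
    E (AA G l S) (G.q k) (next (G.p k)) ∧ E (AA G l S) (next (G.q k)) (G.p k) := by
  constructor <;> refine Pool.Agent.Y463.BS.E.of_mem ((mem_AA G).2 ⟨k, hk, ?_⟩) <;> rw [if_neg hS] <;>
    unfold orr <;> simp

theorem step (hn : 0 < n) {l : List (Fin n)} {S : Finset (Fin n)} (t : ℕ) (k : Fin n)
    (hk : (k : ℕ) = t % n) (hkl : k ∈ l)
    (h : E (AA (torus n) l S) (pt n hn t) (pt n hn (t + n))) :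
    E (AA (torus n) l S) (pt n hn (t + 1)) (pt n hn (t + 1 + n)) ∧
      (k ∉ S → E (AA (torus n) l S) (pt n hn t) (pt n hn (t + 1))) := by
  have e1 : pt n hn (t + 1) = next (pt n hn t) := (next_pt hn t).symm
  have e2 : pt n hn (t + 1 + n) = next (pt n hn (t + n)) := by
    rw [next_pt]; congr 1; ring
  rw [e1, e2]
  rcases lvl hn t k hk with ⟨a1, a2⟩ | ⟨a1, a2⟩ <;> rw [a1, a2] at h <;> rw [a1, a2] <;>
    by_cases hS : k ∈ S
  · exact ⟨(E_un (torus n) hkl hS).2, fun h' => absurd hS h'⟩
  · obtain ⟨b1, b2⟩ := E_or (torus n) hkl hS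
    exact ⟨b1.symm.trans (h.symm.trans b2.symm), fun _ => h.trans b1⟩
  · exact ⟨(E_un (torus n) hkl hS).2.symm, fun h' => absurd hS h'⟩
  · obtain ⟨b1, b2⟩ := E_or (torus n) hkl hS
    exact ⟨b2.trans (h.symm.trans b1), fun _ => h.trans b2.symm⟩

theorem start (hn : 0 < n) {l : List (Fin n)} {S : Finset (Fin n)} {h : Fin n} (hl : h ∈ l) (hS : h ∈ S) :
    E (AA (torus n) l S) (pt n hn (h + 1)) (pt n hn (h + 1 + n)) := by
  have e1 : pt n hn (h + 1) = next (pt n hn h) := (next_pt hn h).symm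
  have e2 : pt n hn (h + 1 + n) = next (pt n hn (h + n)) := by
    rw [next_pt]; congr 1; ring
  rw [e1, e2]
  rcases lvl hn h h (Nat.mod_eq_of_lt h.2).symm with ⟨a1, a2⟩ | ⟨a1, a2⟩ <;> rw [a1, a2]
  · exact (E_un (torus n) hl hS).2
  · exact (E_un (torus n) hl hS).2.symm

theorem walk (hn : 0 < n) {l : List (Fin n)} {S : Finset (Fin n)} {h : Fin n} (hl : h ∈ l) (hS : h ∈ S)
    (d : ℕ) (hd : ∀ d' < d, (⟨(h + 1 + d') % n, Nat.mod_lt _ hn⟩ : Fin n) ∈ l) :
    E (AA (torus n) l S) (pt n hn (h + 1 + d)) (pt n hn (h + 1 + d + n)) := by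
  induction d with
  | zero => exact start hn hl hS
  | succ d ih =>
    have h1 := ih (fun d' hd' => hd d' (by omega))
    exact (step hn (h + 1 + d) _ rfl (hd d (by omega)) h1).1

theorem outside (hn : 0 < n) {i h : Fin n} (hi : i ≠ h) {S : Finset (Fin n)} (hS : h ∈ S) :
    E (AA (torus n) (ex i) S) ((torus n).p i) ((torus n).q i) := by
  have h1 := i.2
  have h2 := h.2
  have h3 : (i : ℕ) ≠ h := fun e => hi (Fin.ext e)
  have key : ∃ d, (h + 1 + d) % n = i ∧ ∀ d' < d, (h + 1 + d') % n ≠ i := by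
    rcases lt_or_gt_of_ne h3 with h4 | h4
    · refine ⟨n + i - h - 1, ?_, ?_⟩
      · have : (h : ℕ) + 1 + (n + i - h - 1) = i + n := by omega
        rw [this, Nat.add_mod_right, Nat.mod_eq_of_lt h1]
      · intro d' hd'
        rcases Nat.lt_or_ge (h + 1 + d') n with h5 | h5
        · rw [Nat.mod_eq_of_lt h5]; omega
        · rw [Nat.mod_eq_sub_mod h5, Nat.mod_eq_of_lt (by omega)]; omega
    · refine ⟨i - h - 1, ?_, ?_⟩
      · have : (h : ℕ) + 1 + (i - h - 1) = i := by omega
        rw [this, Nat.mod_eq_of_lt h1]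
      · intro d' hd'
        rw [Nat.mod_eq_of_lt (by omega)]; omega
  obtain ⟨d, hd1, hd2⟩ := key
  have h6 := walk hn (l := ex i) (mem_ex.2 hi.symm) hS d (fun d' hd' => mem_ex.2 (fun e => hd2 d' hd' (by
    rw [← e])))
  rcases lvl hn (h + 1 + d) i hd1.symm with ⟨a1, a2⟩ | ⟨a1, a2⟩ <;> rw [a1, a2] at h6
  · exact h6
  · exact h6.symm

theorem single (hn : 0 < n) (h : Fin n) : lp (AA (torus n) (List.finRange n) {h}) = 1 := by
  have : Nonempty (Fin (2 * n)) := ⟨pt n hn 0⟩
  have h2 := h.2
  have key : ∀ d, d ≤ n - 1 → E (AA (torus n) (List.finRange n) {h}) (pt n hn (h + 1)) (pt n hn (h + 1 + d)) ∧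
      E (AA (torus n) (List.finRange n) {h}) (pt n hn (h + 1)) (pt n hn (h + 1 + d + n)) := by
    intro d
    induction d with
    | zero =>
      intro _
      exact ⟨Pool.Agent.Y463.BS.E.refl _ _, start hn (List.mem_finRange h) (Finset.mem_singleton_self h)⟩
    | succ d ih =>
      intro hd
      obtain ⟨h3, h4⟩ := ih (by omega)
      have h5 : (⟨(h + 1 + d) % n, Nat.mod_lt _ hn⟩ : Fin n) ∉ ({h} : Finset (Fin n)) := by
        rw [Finset.mem_singleton]
        intro e
        have e' : (h + 1 + d) % n = h := congrArg Fin.val e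
        rcases Nat.lt_or_ge (h + 1 + d) n with h5 | h5
        · rw [Nat.mod_eq_of_lt h5] at e'; omega
        · rw [Nat.mod_eq_sub_mod h5, Nat.mod_eq_of_lt (by omega)] at e'; omega
      obtain ⟨h6, h7⟩ := step hn (h + 1 + d) ⟨(h + 1 + d) % n, Nat.mod_lt _ hn⟩ rfl (List.mem_finRange _)
        (h3.symm.trans h4)
      exact ⟨h3.trans (h7 h5), (h3.trans (h7 h5)).trans h6⟩
  apply lp_eq_one
  have all : ∀ x, E (AA (torus n) (List.finRange n) {h}) (pt n hn (h + 1)) x := by
    intro x
    have hx : ∃ i, x = (torus n).p i ∨ x = (torus n).q i := by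
      obtain ⟨w, rfl⟩ := (torus n).bij.2 x
      rcases w with i | i
      · exact ⟨i, Or.inl rfl⟩
      · exact ⟨i, Or.inr rfl⟩
    obtain ⟨i, hi⟩ := hx
    have h1 := i.2
    have hd : ∃ d, d ≤ n - 1 ∧ (h + 1 + d) % n = i := by
      rcases Nat.lt_or_ge (h : ℕ) i with h4 | h4
      · refine ⟨i - h - 1, by omega, ?_⟩
        have : (h : ℕ) + 1 + (i - h - 1) = i := by omega
        rw [this, Nat.mod_eq_of_lt h1]
      · refine ⟨n + i - h - 1, by omega, ?_⟩
        have : (h : ℕ) + 1 + (n + i - h - 1) = i + n := by omega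
        rw [this, Nat.add_mod_right, Nat.mod_eq_of_lt h1]
    obtain ⟨d, hd1, hd2⟩ := hd
    obtain ⟨h3, h4⟩ := key d hd1
    rcases lvl hn (h + 1 + d) i hd2.symm with ⟨a1, a2⟩ | ⟨a1, a2⟩ <;> rcases hi with hi | hi <;> rw [hi]
    · rw [← a1]; exact h3
    · rw [← a2]; exact h4
    · rw [← a2]; exact h4
    · rw [← a1]; exact h3
  intro x y
  exact (all x).symm.trans (all y)

/-- the number of the curves of a state -/
theorem lp_torus (hn : 0 < n) (S : Finset (Fin n)) (hS : S.Nonempty) :
    lp (AA (torus n) (List.finRange n) S) = S.card := by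
  induction hS using Finset.Nonempty.cons_induction with
  | singleton h => rw [single hn h, Finset.card_singleton]
  | cons i S hi hS ih =>
    obtain ⟨h, hh⟩ := hS
    rw [Finset.cons_eq_insert, Finset.card_insert_of_notMem hi, ← ih]
    exact lp_step (torus n) i S hi (outside hn (fun e => hi (by rw [e]; exact hh)) hh)

theorem parity (hn : n % 2 = 1) {x y : Fin (2 * n)} (h : E (AA (torus n) (List.finRange n) ∅) x y) :
    (x : ℕ) % 2 = (y : ℕ) % 2 := by
  induction h with
  | rel x y h0 =>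
    obtain ⟨k, _, hz⟩ := (mem_AA _).1 h0
    rw [if_neg (Finset.notMem_empty k)] at hz
    unfold orr at hz
    have h1 := next_val ((torus n).p k)
    have h2 := next_val ((torus n).q k)
    have hk := k.2
    rw [torus_p] at h1
    rw [torus_q] at h2
    have h3 : ((torus n).p k : ℕ) = k := rfl
    have h4 : ((torus n).q k : ℕ) = n + k := rfl
    simp only [List.mem_cons, List.not_mem_nil, or_false, Prod.mk.injEq] at hz
    rcases hz with ⟨rfl, rfl⟩ | ⟨rfl, rfl⟩ <;> omega
  | refl x => rfl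
  | symm x y _ ih => exact ih.symm
  | trans x y z _ _ h1 h2 => exact h1.trans h2

theorem lp_empty (hn : n % 2 = 1) : lp (AA (torus n) (List.finRange n) ∅) = 2 := by
  have hn0 : 0 < n := by omega
  have : Nonempty (Fin (2 * n)) := ⟨pt n hn0 0⟩
  set i : Fin n := ⟨0, hn0⟩
  have h1 := single hn0 i
  have h2 := lp_split (torus n) i {i}
  have h3 := lp_split (torus n) i ∅
  rw [if_pos (Finset.mem_singleton_self i), AA_congr (torus n) (i := i) (S := {i}) (S' := ∅)
    (fun k hk => by simp [hk])] at h2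
  rw [if_neg (Finset.notMem_empty i)] at h3
  rw [h2] at h1
  have h4 := Pool.Agent.Y463.BS.three _ _ _ _ _ (concl (torus n) i ∅)
  have e1 : lp (unn (torus n) i ++ AA (torus n) (ex i) ∅) = lp (((torus n).p i, (torus n).q i) ::
    (next ((torus n).p i), next ((torus n).q i)) :: AA (torus n) (ex i) ∅) := rfl
  have e2 : lp (orr (torus n) i ++ AA (torus n) (ex i) ∅) = lp (((torus n).q i, next ((torus n).p i)) ::
    (next ((torus n).q i), (torus n).p i) :: AA (torus n) (ex i) ∅) := rfl
  have hge : lp (AA (torus n) (List.finRange n) ∅) ≠ 1 := by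
    intro h
    unfold Pool.Agent.Y463.BS.lp at h
    rw [Nat.card_eq_one_iff_unique] at h
    obtain ⟨hsub, _⟩ := h
    have h5 : E (AA (torus n) (List.finRange n) ∅) ⟨0, by omega⟩ ⟨1, by omega⟩ :=
      quot_E.1 (Subsingleton.elim _ _)
    have h6 := parity hn h5
    simp at h6
  have hle := one_le_lp (AA (torus n) (List.finRange n) ∅)
  rcases h4 with ⟨-, -, h4, h5, -, -⟩ | ⟨h4, h5, -⟩ | ⟨-, -, h4, h5, -, -⟩ <;> omega

end Pool.Agent.D0H73.QLO.Kn
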