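import Pool.Agent.D0H73.QLO.Torus

set_option autoImplicit false
set_option linter.unusedSectionVars false

/-! The polynomials of the diagrams with the shadow of the torus knot `T(2, n)`. -/

namespace Pool.Agent.D0H73.QLO.Kn

open Finset LaurentPolynomial Pool.Agent.H891R2.Jones Pool.Agent.H832R3.VJ Pool.Agent.R811.Cross
open Pool.Agent.Y463.BS (E lp pts lp_same lp_join lp_mem lp_congr quot_E card_lp)

/-- the value of a circle -/
noncomputable def dl : ℤ[T;T⁻¹] := -T 2 - T (-2)

theorem dl_ne : dl ≠ 0 := by
  intro h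
  have h1 := congrArg (moment 0) h
  have h2 := (Pool.Agent.Y463.BS.m_delta 1).1
  rw [pow_one, pow_one] at h2
  have h3 : moment 0 dl = -2 := h2
  rw [h3] at h1
  have h4 : moment 0 (0 : ℤ[T;T⁻¹]) = 0 := by rw [← V7.momH_apply, map_zero]
  rw [h4] at h1
  norm_num at h1

theorem f_nil {P : Type} (A : List (P × P)) : (⟨A, []⟩ : Diagram P).fPoly = dl ^ (lp A - 1) := by
  unfold Diagram.fPoly
  have h1 : (⟨A, []⟩ : Diagram P).writhe = 0 := rfl
  rw [h1, if_pos (by decide), mul_zero, T_zero, one_mul, one_mul]
  unfold Diagram.bracket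
  refine (Fintype.sum_unique (ι := Fin 0 → Bool) _).trans ?_
  have h2 : ∀ s : Fin 0 → Bool, Diagram.weight s = 0 := by intro s; simp [Diagram.weight]
  refine (congrArg₂ (· * ·) (congrArg T (h2 _)) rfl).trans ?_
  rw [T_zero, one_mul]
  have h3 : ∀ s : Fin 0 → Bool, (⟨A, []⟩ : Diagram P).loops s = lp A := by
    intro s
    unfold Diagram.loops
    exact card_lp fun p q => by
      unfold Diagram.Joined
      constructor
      · rintro (h | ⟨i, _⟩)
        · exact h
        · exact (i : Fin 0).elim0
      · exact Or.inl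
  exact congrArg (fun k => dl ^ (k - 1)) (h3 _)

variable {n : ℕ} (G : Shadow n)

/-- the weight of the smoothing according to the directions -/
noncomputable def wo (b : Bool) : ℤ[T;T⁻¹] := -T (if b then -2 else 2)

/-- the weight of the other smoothing -/
noncomputable def wu (b : Bool) : ℤ[T;T⁻¹] := -T (if b then -4 else 4)

theorem f_cons (A : List (Fin (2 * n) × Fin (2 * n))) (k : Fin n) (b : Bool)
    (cr : List (Crossing (Fin (2 * n)))) :
    (⟨A, G.choice k b :: cr⟩ : Diagram (Fin (2 * n))).fPoly =
      wo b * (⟨orr G k ++ A, cr⟩ : Diagram (Fin (2 * n))).fPoly +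
      wu b * (⟨unn G k ++ A, cr⟩ : Diagram (Fin (2 * n))).fPoly := by
  rw [V6b.fPoly_cons]
  have key : ∀ (a b c d : Fin (2 * n)) (L : List (Fin (2 * n) × Fin (2 * n))),
      (∀ p q, ((p, q) ∈ [(a, b), (c, d)] ∨ (q, p) ∈ [(a, b), (c, d)]) ↔ ((p, q) ∈ L ∨ (q, p) ∈ L)) →
      (⟨(a, b) :: (c, d) :: A, cr⟩ : Diagram (Fin (2 * n))).fPoly =
        (⟨L ++ A, cr⟩ : Diagram (Fin (2 * n))).fPoly := by
    intro a b c d L h
    apply V6b.fPoly_congr
    · intro p q
      have h' := h p q
      simp only [List.mem_append, List.mem_cons, List.not_mem_nil, or_false] at h' ⊢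
      tauto
    · exact List.Perm.refl _
  have t1 : (-T (-3) * T 1 : ℤ[T;T⁻¹]) = -T (-2) := by rw [neg_mul, ← T_add]; norm_num
  have t2 : (-T (-3) * T (-1) : ℤ[T;T⁻¹]) = -T (-4) := by rw [neg_mul, ← T_add]; norm_num
  have t3 : (-T 3 * T 1 : ℤ[T;T⁻¹]) = -T 4 := by rw [neg_mul, ← T_add]; norm_num
  have t4 : (-T 3 * T (-1) : ℤ[T;T⁻¹]) = -T 2 := by rw [neg_mul, ← T_add]; norm_num
  cases b with
  | true =>
    have hs : (G.choice k true).sign = 1 := by
      unfold Shadow.choice positive Shadow.crossing switch Crossing.sign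
      cases G.left k <;> simp
    have e1 := key (G.choice k true).a (G.choice k true).b (G.choice k true).c (G.choice k true).d (orr G k)
      (by
        intro p q
        unfold orr Shadow.choice positive Shadow.crossing switch Crossing.sign
        cases G.left k <;> simp <;> tauto)
    have e2 := key (G.choice k true).b (G.choice k true).c (G.choice k true).d (G.choice k true).a (unn G k)
      (by
        intro p q
        unfold unn Shadow.choice positive Shadow.crossing switch Crossing.sign
        cases G.left k <;> simp <;> tauto)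
    rw [hs, e1, e2]
    unfold wo wu
    simp only [if_true]
    rw [show (-3 * 1 : ℤ) = -3 by norm_num, ← t1, ← t2]
    ring
  | false =>
    have hs : (G.choice k false).sign = -1 := by
      unfold Shadow.choice negative Shadow.crossing switch Crossing.sign
      cases G.left k <;> simp
    have e1 := key (G.choice k false).a (G.choice k false).b (G.choice k false).c (G.choice k false).d (unn G k)
      (by
        intro p q
        unfold unn Shadow.choice negative Shadow.crossing switch Crossing.sign
        cases G.left k <;> simp <;> tauto)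
    have e2 := key (G.choice k false).b (G.choice k false).c (G.choice k false).d (G.choice k false).a (orr G k)
      (by
        intro p q
        unfold orr Shadow.choice negative Shadow.crossing switch Crossing.sign
        cases G.left k <;> simp <;> tauto)
    rw [hs, e1, e2]
    unfold wo wu
    simp only [Bool.false_eq_true, if_false]
    rw [show (-3 * -1 : ℤ) = 3 by norm_num, ← t3, ← t4]
    ring

theorem f_list (s : Fin n → Bool) (l : List (Fin n)) (hl : l.Nodup) :
    ∀ A : List (Fin (2 * n) × Fin (2 * n)),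
    (⟨A, l.map (fun k => G.choice k (s k))⟩ : Diagram (Fin (2 * n))).fPoly =
      ∑ S ∈ l.toFinset.powerset, ((∏ k ∈ S, wu (s k)) * (∏ k ∈ l.toFinset \ S, wo (s k))) *
        dl ^ (lp (A ++ AA G l S) - 1) := by
  induction l with
  | nil =>
    intro A
    rw [List.map_nil, f_nil]
    simp [AA]
  | cons k l ih =>
    intro A
    rw [List.nodup_cons] at hl
    have hk : k ∉ l.toFinset := by simpa using hl.1
    rw [List.map_cons, f_cons, ih hl.2, ih hl.2, List.toFinset_cons, Finset.sum_powerset_insert hk,
      Finset.mul_sum, Finset.mul_sum]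
    congr 1
    · refine Finset.sum_congr rfl fun S hS => ?_
      have hkS : k ∉ S := fun h => hk (Finset.mem_powerset.1 hS h)
      have e1 : insert k l.toFinset \ S = insert k (l.toFinset \ S) := by
        rw [Finset.insert_sdiff_of_notMem _ hkS]
      have e2 : lp (A ++ AA G (k :: l) S) = lp (orr G k ++ A ++ AA G l S) := by
        apply lp_mem
        intro z
        unfold AA
        rw [List.flatMap_cons, if_neg hkS]
        simp only [List.mem_append]
        tauto
      rw [e1, Finset.prod_insert (by simp [hk]), e2]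
      ring
    · refine Finset.sum_congr rfl fun S hS => ?_
      have hkS : k ∉ S := fun h => hk (Finset.mem_powerset.1 hS h)
      have e1 : insert k l.toFinset \ insert k S = l.toFinset \ S := by
        ext j
        simp only [Finset.mem_sdiff, Finset.mem_insert]
        constructor
        · rintro ⟨h1 | h1, h2⟩
          · exact absurd (Or.inl h1) h2
          · exact ⟨h1, fun h => h2 (Or.inr h)⟩
        · rintro ⟨h1, h2⟩
          refine ⟨Or.inr h1, ?_⟩
          rintro (h | h)
          · rw [h] at h1; exact hk h1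
          · exact h2 h
      have e2 : lp (A ++ AA G (k :: l) (insert k S)) = lp (unn G k ++ A ++ AA G l S) := by
        apply lp_mem
        intro z
        have e3 : AA G l (insert k S) = AA G l S := by
          unfold AA
          refine List.flatMap_congr fun j hj => ?_
          have hjk : j ≠ k := by rintro rfl; exact hl.1 hj
          by_cases hjS : j ∈ S
          · rw [if_pos hjS, if_pos (Finset.mem_insert_of_mem hjS)]
          · rw [if_neg hjS, if_neg (by simp [hjk, hjS])]
        have e4 : AA G (k :: l) (insert k S) = unn G k ++ AA G l (insert k S) := by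
          unfold AA
          rw [List.flatMap_cons, if_pos (Finset.mem_insert_self k S)]
        rw [e4, e3]
        simp only [List.mem_append]
        tauto
      rw [e1, Finset.prod_insert hkS, e2]
      ring

/-- the sum of the signs -/
def sgs (s : Fin n → Bool) : ℤ := ∑ k, (if s k then 1 else -1)

theorem prod_T (S : Finset (Fin n)) (a : Fin n → ℤ) : ∏ k ∈ S, (T (a k) : ℤ[T;T⁻¹]) = T (∑ k ∈ S, a k) := by
  induction S using Finset.induction_on with
  | empty => simp
  | insert i S hi ih => rw [Finset.prod_insert hi, Finset.sum_insert hi, ih, T_add]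

theorem torus_poly (hn : n % 2 = 1) (s : Fin n → Bool) :
    dl * ((torus n).diagram s).fPoly = T (-6 * sgs s) - (dl ^ 2 - 1) * T (-2 * sgs s) := by
  have hn0 : 0 < n := by omega
  have h1 := f_list (torus n) s (List.finRange n) (List.nodup_finRange n) []
  have h2 : ((torus n).diagram s).fPoly = (⟨[], (List.finRange n).map (fun k => (torus n).choice k (s k))⟩ :
    Diagram (Fin (2 * n))).fPoly := rfl
  have huniv : (List.finRange n).toFinset = (Finset.univ : Finset (Fin n)) := by
    ext k; simp
  rw [h2, h1, huniv, Finset.mul_sum]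
  have h3 : ∀ S ∈ (Finset.univ : Finset (Fin n)).powerset,
      dl * (((∏ k ∈ S, wu (s k)) * (∏ k ∈ univ \ S, wo (s k))) *
        dl ^ (lp ([] ++ AA (torus n) (List.finRange n) S) - 1)) =
      (∏ k ∈ S, dl * wu (s k)) * (∏ k ∈ univ \ S, wo (s k)) +
        (if S = ∅ then (dl ^ 2 - 1) * ∏ k, wo (s k) else 0) := by
    intro S _
    rw [List.nil_append]
    by_cases hS : S = ∅
    · subst hS
      rw [lp_empty hn, if_pos rfl]
      simp only [Finset.prod_empty, Finset.sdiff_empty]
      ring
    · have hS' := Finset.nonempty_iff_ne_empty.2 hS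
      rw [lp_torus hn0 S hS', if_neg hS, add_zero, Finset.prod_mul_distrib, Finset.prod_const]
      have hc : 0 < S.card := Finset.card_pos.2 hS'
      have : dl ^ S.card = dl * dl ^ (S.card - 1) := by
        rw [← pow_succ']; congr 1; omega
      rw [this]
      ring
  rw [Finset.sum_congr rfl h3, Finset.sum_add_distrib, ← Finset.prod_add,
    Finset.sum_ite_eq' _ ∅, if_pos (Finset.empty_mem_powerset _)]
  have e1 : ∏ k, (dl * wu (s k) + wo (s k)) = T (-6 * sgs s) := by
    have : ∀ k, dl * wu (s k) + wo (s k) = T (-6 * (if s k then 1 else -1)) := by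
      intro k
      unfold dl wu wo
      cases s k
      · simp only [Bool.false_eq_true, if_false]
        have a1 : (T 2 * T 4 : ℤ[T;T⁻¹]) = T 6 := by rw [← T_add]; norm_num
        have a2 : (T (-2) * T 4 : ℤ[T;T⁻¹]) = T 2 := by rw [← T_add]; norm_num
        rw [show (-6 * -1 : ℤ) = 6 by norm_num]
        linear_combination a1 + a2
      · simp only [if_true]
        have a1 : (T 2 * T (-4) : ℤ[T;T⁻¹]) = T (-2) := by rw [← T_add]; norm_num
        have a2 : (T (-2) * T (-4) : ℤ[T;T⁻¹]) = T (-6) := by rw [← T_add]; norm_num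
        rw [show (-6 * 1 : ℤ) = -6 by norm_num]
        linear_combination a1 + a2
    rw [Finset.prod_congr rfl (fun k _ => this k), prod_T, ← Finset.mul_sum]
    rfl
  have e2 : ∏ k, wo (s k) = -T (-2 * sgs s) := by
    have : ∀ k, wo (s k) = (-1) * T (-2 * (if s k then 1 else -1)) := by
      intro k
      unfold wo
      cases s k <;> simp
    rw [Finset.prod_congr rfl (fun k _ => this k), Finset.prod_mul_distrib, prod_T, ← Finset.mul_sum,
      Finset.prod_const, Finset.card_univ, Fintype.card_fin]
    have hodd : Odd n := Nat.odd_iff.2 hn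
    rw [hodd.neg_one_pow]
    unfold sgs
    ring
  rw [e1, e2]
  ring

theorem torus_one (hn : n % 2 = 1) (s : Fin n → Bool) (h : sgs s = 1 ∨ sgs s = -1) :
    ((torus n).diagram s).fPoly = 1 := by
  apply mul_left_cancel₀ dl_ne
  rw [torus_poly hn, mul_one]
  unfold dl
  have a0 : (T 2 * T (-2) : ℤ[T;T⁻¹]) = 1 := by rw [← T_add]; norm_num
  have a1 : (T 6 : ℤ[T;T⁻¹]) = T 2 * T 2 * T 2 := by rw [← T_add, ← T_add]; norm_num
  have a2 : (T (-6) : ℤ[T;T⁻¹]) = T (-2) * T (-2) * T (-2) := by rw [← T_add, ← T_add]; norm_num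
  rcases h with h | h <;> rw [h]
  · rw [show (-6 * 1 : ℤ) = -6 by norm_num, show (-2 * 1 : ℤ) = -2 by norm_num, a2]
    linear_combination (-(T 2) - 2 * T (-2)) * a0
  · rw [show (-6 * -1 : ℤ) = 6 by norm_num, show (-2 * -1 : ℤ) = 2 by norm_num, a1]
    linear_combination (-(T (-2)) - 2 * T 2) * a0

/-! ### the number of the diagrams of the unknot -/

/-- the signs with the given set of positive crossings -/
def ind (S : Finset (Fin n)) : Fin n → Bool := fun k => decide (k ∈ S)

theorem ind_inj : Function.Injective (ind : Finset (Fin n) → Fin n → Bool) := by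
  intro S S' h
  ext k
  have := congrFun h k
  unfold ind at this
  simpa using this

theorem sgs_ind (S : Finset (Fin n)) : sgs (ind S) = 2 * S.card - n := by
  unfold sgs ind
  have h1 : ∀ k : Fin n, (if (decide (k ∈ S) : Bool) = true then (1 : ℤ) else -1) =
      2 * (if k ∈ S then 1 else 0) - 1 := by
    intro k
    by_cases h : k ∈ S <;> simp [h]
  rw [Finset.sum_congr rfl (fun k _ => h1 k), Finset.sum_sub_distrib, ← Finset.mul_sum,
    Finset.sum_boole]
  simp

theorem central (m : ℕ) : 4 ^ m * 4 ^ m ≤ 4 * (m + 1) * (Nat.centralBinom m) ^ 2 ∧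
    (0 < m → 4 ^ m * 4 ^ m ≤ 4 * m * (Nat.centralBinom m) ^ 2) := by
  induction m with
  | zero => simp
  | succ m ih =>
    have h := Nat.succ_mul_centralBinom_succ m
    set c := Nat.centralBinom m
    set c' := Nat.centralBinom (m + 1)
    have key : 4 ^ (m + 1) * 4 ^ (m + 1) ≤ 4 * (m + 1) * c' ^ 2 := by
      rcases Nat.eq_zero_or_pos m with h0 | h0
      · subst h0
        have hc : c = 1 := Nat.centralBinom_zero
        rw [hc] at h
        have hc' : c' = 2 := by omega
        rw [hc']; norm_num
      · have h1 := ih.2 h0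
        have h2 : (m + 1) * (4 ^ (m + 1) * 4 ^ (m + 1)) ≤ (m + 1) * (4 * (m + 1) * c' ^ 2) := by
          have e1 : (m + 1) * (4 * (m + 1) * c' ^ 2) = 4 * ((m + 1) * c') ^ 2 := by ring
          rw [e1, h]
          have e2 : (m + 1) * (4 ^ (m + 1) * 4 ^ (m + 1)) = 16 * (m + 1) * (4 ^ m * 4 ^ m) := by
            rw [pow_succ]; ring
          rw [e2]
          calc 16 * (m + 1) * (4 ^ m * 4 ^ m) ≤ 16 * (m + 1) * (4 * m * c ^ 2) :=
                Nat.mul_le_mul_left _ h1
            _ = 16 * (4 * m * (m + 1)) * c ^ 2 := by ring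
            _ ≤ 16 * (2 * m + 1) ^ 2 * c ^ 2 :=
                Nat.mul_le_mul_right _ (Nat.mul_le_mul_left _ (by nlinarith))
            _ = 4 * (2 * (2 * m + 1) * c) ^ 2 := by ring
        exact Nat.le_of_mul_le_mul_left h2 (by omega)
    refine ⟨?_, fun _ => key⟩
    refine key.trans (Nat.mul_le_mul_right _ (by omega))

theorem torus_count (m : ℕ) [DecidablePred (fun s : Fin (2 * m + 1) → Bool =>
      ((torus (2 * m + 1)).diagram s).fPoly = 1)] :
    4 ^ (2 * m + 1) ≤ (m + 1) * (Finset.univ.filter (fun s : Fin (2 * m + 1) → Bool =>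
      ((torus (2 * m + 1)).diagram s).fPoly = 1)).card ^ 2 := by
  classical
  set U := (Finset.powersetCard m (Finset.univ : Finset (Fin (2 * m + 1)))) ∪
    Finset.powersetCard (m + 1) Finset.univ with hU
  have hcard : U.card = Nat.centralBinom (m + 1) := by
    rw [hU, Finset.card_union_of_disjoint, Finset.card_powersetCard, Finset.card_powersetCard,
      Finset.card_univ, Fintype.card_fin, Nat.centralBinom_eq_two_mul_choose,
      show 2 * (m + 1) = (2 * m + 1) + 1 by ring, Nat.choose_succ_succ (2 * m + 1) m]
    rw [Finset.disjoint_left]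
    intro S h1 h2
    rw [Finset.mem_powersetCard] at h1 h2
    omega
  have hsub : U.image ind ⊆ Finset.univ.filter (fun s : Fin (2 * m + 1) → Bool =>
      ((torus (2 * m + 1)).diagram s).fPoly = 1) := by
    intro s hs
    obtain ⟨S, hS, rfl⟩ := Finset.mem_image.1 hs
    refine Finset.mem_filter.2 ⟨Finset.mem_univ _, torus_one (by omega) _ ?_⟩
    rw [sgs_ind]
    rw [hU, Finset.mem_union, Finset.mem_powersetCard, Finset.mem_powersetCard] at hS
    rcases hS with hS | hS <;> rw [hS.2] <;> push_cast <;> [right; left] <;> ring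
  have h1 := Finset.card_le_card hsub
  rw [Finset.card_image_of_injective _ ind_inj, hcard] at h1
  have h2 := (central (m + 1)).2 (by omega)
  have h3 : 4 ^ (m + 1) * 4 ^ (m + 1) = 4 * 4 ^ (2 * m + 1) := by
    rw [← pow_add, ← pow_succ']; congr 1; ring
  rw [h3] at h2
  have h4 : 4 ^ (2 * m + 1) ≤ (m + 1) * Nat.centralBinom (m + 1) ^ 2 := by
    have e : 4 * (m + 1) * Nat.centralBinom (m + 1) ^ 2 = 4 * ((m + 1) * Nat.centralBinom (m + 1) ^ 2) := by
      ring
    rw [e] at h2
    exact Nat.le_of_mul_le_mul_left h2 (by norm_num)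
  exact h4.trans (Nat.mul_le_mul_left _ (Nat.pow_le_pow_left h1 2))

end Pool.Agent.D0H73.QLO.Kn
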