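import Pool.Agent.D0H73.QLO.Cls

set_option autoImplicit false
set_option linter.unusedSectionVars false

/-! The points at which many differences vanish, and the conclusion. -/

namespace Pool.Agent.D0H73.QLO

open Finset Pool.Agent.R811.Cross

variable {ι κ : Type} [Fintype ι] [DecidableEq ι] [Fintype κ] [DecidableEq κ]

namespace Sys

variable (P : Sys ι κ)

open Classical in
/-- the indicator of a vanishing difference -/
noncomputable def Z (k : κ) (x : ι → Bool) : ℝ := if P.L k x = 0 then 1 else 0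

theorem Z_cases (k : κ) (x : ι → Bool) : P.Z k x = 0 ∨ P.Z k x = 1 := by
  unfold Z; split_ifs <;> simp

theorem Z_far {k : κ} {x : ι → Bool} (h : P.L k x ≠ 0) : P.Z k x = 0 := by
  unfold Z; rw [if_neg h]

theorem zero_part (τ : κ → κ) (hτ : Function.Injective τ)
    (hne : ∀ k x, P.L k (flip (P.e (τ k)) x) ≠ P.L k x) (G : Finset (ι → Bool))
    (hG : ∀ x ∈ G, ((univ.filter (fun k => P.L k x ≠ 0)).card : ℝ) < P.cc / 4) :
    (G.card : ℝ) ^ 2 * P.cc ≤ 1936 * P.B ^ 2 * P.N ^ 2 := by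
  classical
  have hB := P.hB
  have hB0 := P.B_pos
  have hN := P.N_pos
  rcases P.cc_nonneg.eq_or_lt with h0 | hcc
  · rw [← h0, mul_zero]; positivity
  have hcc1 : 1 ≤ P.cc := by
    unfold cc at hcc ⊢
    have : 0 < Fintype.card κ := by exact_mod_cast hcc
    exact_mod_cast this
  set q : ℝ := √P.cc with hq
  have hq2 : q ^ 2 = P.cc := Real.sq_sqrt hcc.le
  have hq1 : 1 ≤ q := Real.one_le_sqrt.2 hcc1
  have hq0 : 0 < q := lt_of_lt_of_le one_pos hq1
  set g : κ → (ι → Bool) → ℝ := fun k x =>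
    sr (x (P.e (τ k))) * (P.Z k x - P.Z k (flip (P.e (τ k)) x)) with hg
  have hgs : ∀ k x, sr (x (P.e (τ k))) * g k x = P.Z k x - P.Z k (flip (P.e (τ k)) x) := by
    intro k x
    simp only [hg]
    rw [← mul_assoc, sr_sq, one_mul]
  have hginv : ∀ k x, g k (flip (P.e (τ k)) x) = g k x := by
    intro k x
    simp only [hg]
    rw [flip_same, sr_not, Pool.Agent.R811.Cross.flip_flip]
    ring
  have hdiff : ∀ k x, |P.Z k x - P.Z k (flip (P.e (τ k)) x)| ≤ 1 := by
    intro k x
    rcases P.Z_cases k x with h | h <;> rcases P.Z_cases k (flip (P.e (τ k)) x) with h' | h' <;>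
      rw [h, h'] <;> norm_num
  have m2 := second (fun k => P.e (τ k)) (fun a b hab => hτ (P.inj hab)) g hginv
  have hM1 : ∑ k, ∑ x, (g k x) ^ 2 ≤ P.cc * P.N := by
    calc ∑ k, ∑ x, (g k x) ^ 2 ≤ ∑ _k : κ, P.N := by
          refine Finset.sum_le_sum fun k _ => ?_
          calc ∑ x, (g k x) ^ 2 ≤ ∑ _x : ι → Bool, (1 : ℝ) := by
                refine Finset.sum_le_sum fun x _ => ?_
                have h1 := pow_le_pow_left₀ (abs_nonneg _) (hdiff k x) 2
                rw [sq_abs, one_pow] at h1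
                simp only [hg]
                rw [mul_pow]
                have h2 : sr (x (P.e (τ k))) ^ 2 = 1 := by rw [pow_two, sr_sq]
                rw [h2, one_mul]
                exact h1
            _ = ((univ : Finset (ι → Bool)).card : ℝ) := by
                rw [Finset.sum_const, nsmul_eq_mul, mul_one]
            _ ≤ P.N := P.card_le_N _
      _ = P.cc * P.N := by rw [Finset.sum_const, nsmul_eq_mul]; rfl
  have hpt : ∀ k l x, (g k x - g k (flip (P.e (τ l)) x)) ^ 2 ≤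
      if τ l ∈ P.nb k ∧ |P.L k x| ≤ 2 * P.B then 4 else 0 := by
    intro k l x
    have hz : τ l ∉ P.nb k → P.L k (flip (P.e (τ l)) x) = P.L k x := fun h => P.L_zero h x
    by_cases hl : τ l = τ k
    · rw [hl, hginv, sub_self]
      split_ifs <;> norm_num
    · have hne' : P.e (τ k) ≠ P.e (τ l) := fun h => hl (P.inj h).symm
      have e1 : g k x - g k (flip (P.e (τ l)) x) = sr (x (P.e (τ k))) *
          ((P.Z k x - P.Z k (flip (P.e (τ k)) x)) - (P.Z k (flip (P.e (τ l)) x) -
            P.Z k (flip (P.e (τ k)) (flip (P.e (τ l)) x)))) := by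
        simp only [hg]
        rw [flip_ne hne']
        ring
      have hs : sr (x (P.e (τ k))) ^ 2 = 1 := by rw [pow_two, sr_sq]
      rw [e1, mul_pow, hs, one_mul]
      by_cases hn : τ l ∈ P.nb k
      · by_cases hx : |P.L k x| ≤ 2 * P.B
        · rw [if_pos ⟨hn, hx⟩]
          have h1 := hdiff k x
          have h2 := hdiff k (flip (P.e (τ l)) x)
          rw [abs_le] at h1 h2
          nlinarith [h1.1, h1.2, h2.1, h2.2]
        · rw [if_neg (fun h => hx h.2)]
          rw [not_le] at hx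
          have hh : ∀ z, |P.L k x - P.L k z| ≤ 2 * P.B → P.Z k z = 0 := by
            intro z hz
            apply P.Z_far
            intro h0
            rw [h0, sub_zero] at hz
            linarith
          have a0 : P.Z k x = 0 := hh x (by rw [sub_self, abs_zero]; positivity)
          have a1 : P.Z k (flip (P.e (τ k)) x) = 0 := hh _ ((P.L_bd k (τ k) x).trans (by linarith))
          have a2 : P.Z k (flip (P.e (τ l)) x) = 0 := hh _ ((P.L_bd k (τ l) x).trans (by linarith))
          have a3 : P.Z k (flip (P.e (τ k)) (flip (P.e (τ l)) x)) = 0 := by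
            apply hh
            have b1 := P.L_bd k (τ l) x
            have b2 := P.L_bd k (τ k) (flip (P.e (τ l)) x)
            have b3 := abs_add_le (P.L k x - P.L k (flip (P.e (τ l)) x))
              (P.L k (flip (P.e (τ l)) x) - P.L k (flip (P.e (τ k)) (flip (P.e (τ l)) x)))
            rw [sub_add_sub_cancel] at b3
            linarith
          rw [a0, a1, a2, a3]; norm_num
      · rw [if_neg (fun h => hn h.1)]
        have b1 : P.Z k (flip (P.e (τ l)) x) = P.Z k x := by unfold Z; rw [P.L_zero hn]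
        have b2 : P.Z k (flip (P.e (τ k)) (flip (P.e (τ l)) x)) = P.Z k (flip (P.e (τ k)) x) := by
          rw [flip_comm]; unfold Z; rw [P.L_zero hn]
        rw [b1, b2]; norm_num
  have hM2 : ∑ k, ∑ l, ∑ x, (g k x - g k (flip (P.e (τ l)) x)) ^ 2 ≤ P.cc * (40 * P.B * q * P.N) := by
    calc ∑ k, ∑ l, ∑ x, (g k x - g k (flip (P.e (τ l)) x)) ^ 2 ≤ ∑ _k : κ, 40 * P.B * q * P.N := by
          refine Finset.sum_le_sum fun k _ => ?_
          set m : ℝ := ((univ.filter (fun x => |P.L k x| ≤ 2 * P.B)).card : ℝ) with hm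
          have hm0 : 0 ≤ m := by positivity
          have h1 : ∀ l, ∑ x, (g k x - g k (flip (P.e (τ l)) x)) ^ 2 ≤
              if τ l ∈ P.nb k then 4 * m else 0 := by
            intro l
            refine (Finset.sum_le_sum fun x _ => hpt k l x).trans ?_
            by_cases hn : τ l ∈ P.nb k
            · simp only [hn, true_and, if_true]
              rw [← Finset.sum_filter, Finset.sum_const, nsmul_eq_mul, hm]
              linarith
            · simp only [hn, false_and, if_false, Finset.sum_const_zero, le_refl]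
          refine (Finset.sum_le_sum fun l _ => h1 l).trans ?_
          rw [← Finset.sum_filter, Finset.sum_const, nsmul_eq_mul]
          have h2 : ((univ.filter (fun l => τ l ∈ P.nb k)).card : ℝ) ≤ P.sz k ^ 2 := by
            rw [P.sz_sq]
            have : (univ.filter (fun l => τ l ∈ P.nb k)).card ≤ (P.nb k).card :=
              Finset.card_le_card_of_injOn τ (fun l hl => (Finset.mem_filter.1 hl).2)
                (fun a _ b _ hab => hτ hab)
            exact_mod_cast this
          have h3 : m * P.sz k ≤ (2 * (2 * P.B) + 1) * (2 * P.N) := P.lo k (2 * P.B) (by positivity)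
          have h4 : P.sz k ≤ q := by
            unfold sz
            rw [hq]
            apply Real.sqrt_le_sqrt
            unfold cc
            exact_mod_cast Finset.card_le_univ _
          have hs := P.sz_pos k
          calc ((univ.filter (fun l => τ l ∈ P.nb k)).card : ℝ) * (4 * m) ≤ P.sz k ^ 2 * (4 * m) :=
                mul_le_mul_of_nonneg_right h2 (by positivity)
            _ = 4 * P.sz k * (m * P.sz k) := by ring
            _ ≤ 4 * P.sz k * ((2 * (2 * P.B) + 1) * (2 * P.N)) :=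
                mul_le_mul_of_nonneg_left h3 (by positivity)
            _ = P.sz k * ((32 * P.B + 8) * P.N) := by ring
            _ ≤ q * ((40 * P.B) * P.N) :=
                mul_le_mul h4 (mul_le_mul_of_nonneg_right (by linarith) hN.le) (by positivity) hq0.le
            _ = _ := by ring
      _ = _ := by rw [Finset.sum_const, nsmul_eq_mul]; rfl
  -- the lower bound
  have hY : ∀ x ∈ G, P.cc / 2 ≤ |∑ k, sr (x (P.e (τ k))) * g k x| := by
    intro x hx
    refine le_trans ?_ (le_abs_self _)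
    rw [Finset.sum_congr rfl (fun k _ => hgs k x)]
    have h1 : ∀ k, 2 * P.Z k x - 1 ≤ P.Z k x - P.Z k (flip (P.e (τ k)) x) := by
      intro k
      have h2 : P.Z k x + P.Z k (flip (P.e (τ k)) x) ≤ 1 := by
        by_cases h0 : P.L k x = 0
        · have : P.L k (flip (P.e (τ k)) x) ≠ 0 := by
            intro h'; exact hne k x (h'.trans h0.symm)
          rw [P.Z_far this]
          rcases P.Z_cases k x with h | h <;> rw [h] <;> norm_num
        · rw [P.Z_far h0]
          rcases P.Z_cases k (flip (P.e (τ k)) x) with h | h <;> rw [h] <;> norm_num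
      linarith
    have h2 : ∑ k, (2 * P.Z k x - 1) = P.cc - 2 * ((univ.filter (fun k => P.L k x ≠ 0)).card : ℝ) := by
      rw [Finset.sum_sub_distrib, ← Finset.mul_sum]
      have e1 : ∑ k, P.Z k x = P.cc - ((univ.filter (fun k => P.L k x ≠ 0)).card : ℝ) := by
        have e2 : ∑ k, (P.Z k x + (if P.L k x ≠ 0 then (1 : ℝ) else 0)) = P.cc := by
          have : ∀ k, P.Z k x + (if P.L k x ≠ 0 then (1 : ℝ) else 0) = 1 := by
            intro k
            unfold Z
            by_cases h : P.L k x = 0 <;> simp [h]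
          rw [Finset.sum_congr rfl (fun k _ => this k), Finset.sum_const, nsmul_eq_mul, mul_one]
          rfl
        rw [Finset.sum_add_distrib, Finset.sum_boole] at e2
        linarith
      rw [e1, Finset.sum_const, nsmul_eq_mul, mul_one]
      have : ((univ : Finset κ).card : ℝ) = P.cc := rfl
      rw [this]; ring
    have h3 := Finset.sum_le_sum (s := univ) fun k _ => h1 k
    rw [h2] at h3
    have h4 := hG x hx
    linarith
  have hsum : (G.card : ℝ) * (P.cc / 2) ^ 2 ≤ ∑ x, (∑ k, sr (x (P.e (τ k))) * g k x) ^ 2 := by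
    calc (G.card : ℝ) * (P.cc / 2) ^ 2 = ∑ _x ∈ G, (P.cc / 2) ^ 2 := by
          rw [Finset.sum_const, nsmul_eq_mul]
      _ ≤ ∑ x ∈ G, (∑ k, sr (x (P.e (τ k))) * g k x) ^ 2 := by
          refine Finset.sum_le_sum fun x hx => ?_
          have := pow_le_pow_left₀ (by positivity) (hY x hx) 2
          rwa [sq_abs] at this
      _ ≤ _ := Finset.sum_le_sum_of_subset_of_nonneg (Finset.subset_univ _) (fun x _ _ => sq_nonneg _)
  have h5 : (G.card : ℝ) * (P.cc / 2) ^ 2 ≤ P.cc * P.N + 1 / 4 * (P.cc * (40 * P.B * q * P.N)) := by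
    linarith
  have h6 : (G.card : ℝ) * q ≤ 44 * P.B * P.N := by
    rw [← hq2] at h5
    have h7 : q ^ 2 * P.N + 1 / 4 * (q ^ 2 * (40 * P.B * q * P.N)) ≤ 11 * P.B * P.N * q ^ 3 := by
      have t1 : q ^ 2 ≤ P.B * q ^ 3 := by
        have : 1 ≤ P.B * q := one_le_mul_of_one_le_of_one_le hB hq1
        nlinarith [sq_nonneg q]
      nlinarith
    have h8 : q ^ 3 * ((G.card : ℝ) * q) ≤ q ^ 3 * (44 * P.B * P.N) := by
      have : (G.card : ℝ) * (q ^ 2 / 2) ^ 2 = q ^ 3 * ((G.card : ℝ) * q) / 4 := by ring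
      rw [this] at h5
      linarith
    exact le_of_mul_le_mul_left h8 (by positivity)
  have h9 := pow_le_pow_left₀ (by positivity) h6 2
  rw [← hq2]
  calc (G.card : ℝ) ^ 2 * q ^ 2 = ((G.card : ℝ) * q) ^ 2 := by ring
    _ ≤ (44 * P.B * P.N) ^ 2 := h9
    _ = _ := by ring

/-- the scale of a difference -/
theorem scale {k : κ} {x : ι → Bool} (h0 : P.L k x ≠ 0) :
    P.sz k / 2 < |P.L k x| ∨ ∃ b ∈ Finset.Icc 1 (Nat.log 2 (Fintype.card κ)),
      P.rr b k / 2 < |P.L k x| ∧ |P.L k x| ≤ P.rr b k := by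
  by_cases h : P.sz k / 2 < |P.L k x|
  · exact Or.inl h
  right
  rw [not_lt] at h
  have h1 := P.one_le_L h0
  have hpos : 0 < |P.L k x| := lt_of_lt_of_le one_pos h1
  have hs := P.sz_pos k
  set t : ℝ := P.sz k / |P.L k x| with ht
  have ht2 : 2 ≤ t := by
    rw [ht, le_div_iff₀ hpos]; linarith
  have htc : t ≤ Fintype.card κ := by
    have h3 : t ≤ P.sz k := by
      rw [ht, div_le_iff₀ hpos]
      nlinarith
    have h4 : P.sz k ≤ (P.nb k).card := by
      rw [← P.sz_sq]
      nlinarith [P.one_le_sz k]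
    have h5 : ((P.nb k).card : ℝ) ≤ Fintype.card κ := by exact_mod_cast Finset.card_le_univ _
    linarith
  set n := ⌊t⌋₊ with hn
  have hn2 : 2 ≤ n := Nat.le_floor (by exact_mod_cast ht2)
  have hnt : (n : ℝ) ≤ t := Nat.floor_le (by linarith)
  have htn : t < n + 1 := Nat.lt_floor_add_one t
  set b := Nat.log 2 n with hb
  have hb1 : 2 ^ b ≤ n := Nat.pow_log_le_self 2 (by omega)
  have hb2 : n < 2 ^ (b + 1) := Nat.lt_pow_succ_log_self (by norm_num) n
  refine ⟨b, Finset.mem_Icc.2 ⟨?_, ?_⟩, ?_, ?_⟩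
  · exact Nat.log_pos (by norm_num) hn2
  · exact Nat.log_mono_right (by exact_mod_cast hnt.trans htc)
  · have h6 : t < 2 ^ (b + 1) := by
      have : (n : ℝ) + 1 ≤ 2 ^ (b + 1) := by exact_mod_cast hb2
      linarith
    rw [ht, div_lt_iff₀ hpos] at h6
    unfold rr
    rw [div_div, div_lt_iff₀ (by positivity)]
    rw [pow_succ] at h6
    linarith
  · have h7 : (2 : ℝ) ^ b ≤ t := by
      have : (2 : ℝ) ^ b ≤ n := by exact_mod_cast hb1
      linarith
    rw [ht, le_div_iff₀ hpos] at h7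
    unfold rr
    rw [le_div_iff₀ (by positivity)]
    linarith

/-- **the conclusion** -/
theorem level (τ : κ → κ) (hτ : Function.Injective τ)
    (hne : ∀ k x, P.L k (flip (P.e (τ k)) x) ≠ P.L k x) (y : ℤ) :
    P.cc * ((univ.filter (fun x => P.F x = y)).card : ℝ) ^ 2 ≤
      42000000 * P.B ^ 4 * ((Nat.log 2 (Fintype.card κ) : ℝ) + 2) ^ 7 * P.N ^ 2 := by
  classical
  have hB := P.hB
  have hB0 := P.B_pos
  have hN := P.N_pos
  rcases P.cc_nonneg.eq_or_lt with h0 | hcc
  · rw [← h0, zero_mul]; positivity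
  set m := Nat.log 2 (Fintype.card κ) with hm
  set G : Finset (ι → Bool) := univ.filter (fun x => P.F x = y) with hG
  have hGF : ∀ x ∈ G, P.F x = y := fun x hx => (Finset.mem_filter.1 hx).2
  set K : ℝ := P.cc / (4 * (m + 1)) with hK
  have hm0 : (0 : ℝ) ≤ m := by positivity
  have hK0 : 0 < K := by positivity
  have hKc : K ≤ P.cc := by
    rw [hK, div_le_iff₀ (by positivity)]
    nlinarith
  -- the classes
  set A : ℕ → (ι → Bool) → Finset κ := fun b x => if b = 0 then
    univ.filter (fun k => P.sz k / 2 < |P.L k x|) else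
    univ.filter (fun k => P.rr b k / 2 < |P.L k x| ∧ |P.L k x| ≤ P.rr b k) with hA
  set Gz : Finset (ι → Bool) :=
    G.filter (fun x => ((univ.filter (fun k => P.L k x ≠ 0)).card : ℝ) < P.cc / 4) with hGz
  set Gb : ℕ → Finset (ι → Bool) := fun b => G.filter (fun x => K ≤ ((A b x).card : ℝ)) with hGb
  have hz : (Gz.card : ℝ) ^ 2 * P.cc ≤ 1936 * P.B ^ 2 * P.N ^ 2 :=
    P.zero_part τ hτ hne Gz (fun x hx => (Finset.mem_filter.1 hx).2)
  have hb : ∀ b, ((Gb b).card : ℝ) ^ 2 * K ^ 5 ≤ 40128 * P.B ^ 4 * P.cc ^ 4 * P.N ^ 2 := by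
    intro b
    rcases Nat.eq_zero_or_pos b with h0 | h0
    · refine P.cls0 hK0 hKc y (Gb b) (fun x hx => hGF x (Finset.mem_filter.1 hx).1) (fun x hx => ?_)
      have := (Finset.mem_filter.1 hx).2
      simp only [hA, h0, if_true] at this
      exact this
    · refine P.cls b hK0 hKc y (Gb b) (fun x hx => hGF x (Finset.mem_filter.1 hx).1) (fun x hx => ?_)
      have := (Finset.mem_filter.1 hx).2
      simp only [hA, if_neg (show ¬ b = 0 by omega)] at this
      exact this
  have hb' : ∀ b, P.cc * ((Gb b).card : ℝ) ^ 2 ≤ 41091072 * P.B ^ 4 * ((m : ℝ) + 1) ^ 5 * P.N ^ 2 := by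
    intro b
    have h1 := hb b
    have h2 : P.cc = K * (4 * (m + 1)) := by rw [hK]; field_simp
    have h3 : P.cc ^ 4 * P.cc = K ^ 5 * (4 * (m + 1)) ^ 5 := by
      rw [← pow_succ]
      conv_lhs => rw [h2]
      rw [mul_pow]
    have h4 : K ^ 5 * (P.cc * ((Gb b).card : ℝ) ^ 2) ≤
        K ^ 5 * (41091072 * P.B ^ 4 * ((m : ℝ) + 1) ^ 5 * P.N ^ 2) := by
      calc K ^ 5 * (P.cc * ((Gb b).card : ℝ) ^ 2) = P.cc * (((Gb b).card : ℝ) ^ 2 * K ^ 5) := by ring
        _ ≤ P.cc * (40128 * P.B ^ 4 * P.cc ^ 4 * P.N ^ 2) := mul_le_mul_of_nonneg_left h1 hcc.le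
        _ = 40128 * P.B ^ 4 * (P.cc ^ 4 * P.cc) * P.N ^ 2 := by ring
        _ = 40128 * P.B ^ 4 * (K ^ 5 * (4 * (m + 1)) ^ 5) * P.N ^ 2 := by rw [h3]
        _ = _ := by ring
    exact le_of_mul_le_mul_left h4 (by positivity)
  -- the covering
  have hcov : G ⊆ Gz ∪ (Finset.range (m + 1)).biUnion Gb := by
    intro x hx
    rw [Finset.mem_union, Finset.mem_biUnion]
    by_contra hcon
    rw [not_or] at hcon
    obtain ⟨c1, c2⟩ := hcon
    have c3 : P.cc / 4 ≤ ((univ.filter (fun k => P.L k x ≠ 0)).card : ℝ) := by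
      by_contra h
      exact c1 (Finset.mem_filter.2 ⟨hx, not_le.1 h⟩)
    have c4 : ∀ b ∈ Finset.range (m + 1), ((A b x).card : ℝ) < K := by
      intro b hb
      by_contra h
      exact c2 ⟨b, hb, Finset.mem_filter.2 ⟨hx, not_lt.1 h⟩⟩
    have c5 : (univ.filter (fun k => P.L k x ≠ 0)) ⊆ (Finset.range (m + 1)).biUnion (fun b => A b x) := by
      intro k hk
      have h0 := (Finset.mem_filter.1 hk).2
      rw [Finset.mem_biUnion]
      rcases P.scale h0 with h | ⟨b, hb, h⟩
      · exact ⟨0, Finset.mem_range.2 (by omega), by simp only [hA, if_true]; simpa using h⟩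
      · rw [Finset.mem_Icc] at hb
        refine ⟨b, Finset.mem_range.2 (by omega), ?_⟩
        simp only [hA, if_neg (show ¬ b = 0 by omega)]
        simpa using h
    have c6 : ((univ.filter (fun k => P.L k x ≠ 0)).card : ℝ) ≤
        ∑ b ∈ Finset.range (m + 1), ((A b x).card : ℝ) := by
      have := (Finset.card_le_card c5).trans Finset.card_biUnion_le
      exact_mod_cast this
    have c7 : ∑ b ∈ Finset.range (m + 1), ((A b x).card : ℝ) < ∑ _b ∈ Finset.range (m + 1), K :=
      Finset.sum_lt_sum_of_nonempty ⟨0, Finset.mem_range.2 (by omega)⟩ c4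
    rw [Finset.sum_const, nsmul_eq_mul, Finset.card_range] at c7
    have c8 : ((m + 1 : ℕ) : ℝ) * K = P.cc / 4 := by rw [hK]; push_cast; field_simp
    rw [c8] at c7
    linarith
  have hcard : (G.card : ℝ) ≤ Gz.card + ∑ b ∈ Finset.range (m + 1), ((Gb b).card : ℝ) := by
    have h1 := (Finset.card_le_card hcov).trans (Finset.card_union_le _ _)
    have h2 : ((Finset.range (m + 1)).biUnion Gb).card ≤ ∑ b ∈ Finset.range (m + 1), (Gb b).card :=
      Finset.card_biUnion_le
    have h3 : G.card ≤ Gz.card + ∑ b ∈ Finset.range (m + 1), (Gb b).card := by omega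
    exact_mod_cast h3
  have hsq : (∑ b ∈ Finset.range (m + 1), ((Gb b).card : ℝ)) ^ 2 ≤
      (m + 1) * ∑ b ∈ Finset.range (m + 1), ((Gb b).card : ℝ) ^ 2 := by
    have := sq_sum_le_card_mul_sum_sq (s := Finset.range (m + 1)) (f := fun b => ((Gb b).card : ℝ))
    rw [Finset.card_range] at this
    exact_mod_cast this
  set X : ℝ := (Gz.card : ℝ) with hX
  set Y : ℝ := ∑ b ∈ Finset.range (m + 1), ((Gb b).card : ℝ) with hYd
  set W : ℝ := 41091072 * P.B ^ 4 * ((m : ℝ) + 1) ^ 5 * P.N ^ 2 with hW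
  have hX0 : 0 ≤ X := by positivity
  have hY0 : 0 ≤ Y := Finset.sum_nonneg fun b _ => by positivity
  have hYY : P.cc * Y ^ 2 ≤ (m + 1) * ((m + 1) * W) := by
    calc P.cc * Y ^ 2 ≤ P.cc * ((m + 1) * ∑ b ∈ Finset.range (m + 1), ((Gb b).card : ℝ) ^ 2) :=
          mul_le_mul_of_nonneg_left hsq hcc.le
      _ = (m + 1) * ∑ b ∈ Finset.range (m + 1), P.cc * ((Gb b).card : ℝ) ^ 2 := by
          rw [← Finset.mul_sum]; ring
      _ ≤ (m + 1) * ∑ _b ∈ Finset.range (m + 1), W :=
          mul_le_mul_of_nonneg_left (Finset.sum_le_sum fun b _ => hb' b) (by positivity)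
      _ = _ := by rw [Finset.sum_const, nsmul_eq_mul, Finset.card_range]; push_cast; ring
  have hXY : (X + Y) ^ 2 ≤ (m + 2) * (X ^ 2 + Y ^ 2 / (m + 1)) := by
    have h1 : (0 : ℝ) < m + 1 := by positivity
    have h2 : (m + 2 : ℝ) * (X ^ 2 + Y ^ 2 / (m + 1)) - (X + Y) ^ 2 =
        ((m + 1) * X - Y) ^ 2 / (m + 1) := by field_simp; ring
    have h3 : 0 ≤ ((m + 1) * X - Y) ^ 2 / (m + 1) := by positivity
    linarith
  have hfin : P.cc * (X + Y) ^ 2 ≤ (m + 2) * (1936 * P.B ^ 2 * P.N ^ 2 + (m + 1) * W) := by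
    calc P.cc * (X + Y) ^ 2 ≤ P.cc * ((m + 2) * (X ^ 2 + Y ^ 2 / (m + 1))) :=
          mul_le_mul_of_nonneg_left hXY hcc.le
      _ = (m + 2) * (X ^ 2 * P.cc + (P.cc * Y ^ 2) / (m + 1)) := by ring
      _ ≤ (m + 2) * (1936 * P.B ^ 2 * P.N ^ 2 + (m + 1) * W) := by
          refine mul_le_mul_of_nonneg_left (add_le_add hz ?_) (by positivity)
          rw [div_le_iff₀ (by positivity)]
          linarith
  have hend : (m + 2 : ℝ) * (1936 * P.B ^ 2 * P.N ^ 2 + (m + 1) * W) ≤
      42000000 * P.B ^ 4 * ((m : ℝ) + 2) ^ 7 * P.N ^ 2 := by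
    have e1 : (1936 : ℝ) * P.B ^ 2 * P.N ^ 2 ≤ 1936 * P.B ^ 4 * (m + 2) ^ 6 * P.N ^ 2 := by
      have t1 : P.B ^ 2 ≤ P.B ^ 4 := pow_le_pow_right₀ hB (by norm_num)
      have t2 : (1 : ℝ) ≤ (m + 2) ^ 6 := one_le_pow₀ (by linarith)
      have t3 : P.B ^ 2 ≤ P.B ^ 4 * (m + 2) ^ 6 := by nlinarith [pow_pos hB0 4]
      calc (1936 : ℝ) * P.B ^ 2 * P.N ^ 2 ≤ 1936 * (P.B ^ 4 * (m + 2) ^ 6) * P.N ^ 2 := by
            refine mul_le_mul_of_nonneg_right ?_ (by positivity)
            linarith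
        _ = _ := by ring
    have e2 : (m + 1 : ℝ) * W ≤ 41091072 * P.B ^ 4 * (m + 2) ^ 6 * P.N ^ 2 := by
      rw [hW]
      have t1 : ((m : ℝ) + 1) ^ 6 ≤ (m + 2) ^ 6 := pow_le_pow_left₀ (by positivity) (by linarith) 6
      calc (m + 1 : ℝ) * (41091072 * P.B ^ 4 * ((m : ℝ) + 1) ^ 5 * P.N ^ 2) =
            41091072 * P.B ^ 4 * ((m : ℝ) + 1) ^ 6 * P.N ^ 2 := by ring
        _ ≤ 41091072 * P.B ^ 4 * ((m : ℝ) + 2) ^ 6 * P.N ^ 2 := by
            refine mul_le_mul_of_nonneg_right (mul_le_mul_of_nonneg_left t1 (by positivity)) (by positivity)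
    calc (m + 2 : ℝ) * (1936 * P.B ^ 2 * P.N ^ 2 + (m + 1) * W) ≤
          (m + 2) * (1936 * P.B ^ 4 * (m + 2) ^ 6 * P.N ^ 2 +
            41091072 * P.B ^ 4 * (m + 2) ^ 6 * P.N ^ 2) :=
          mul_le_mul_of_nonneg_left (add_le_add e1 e2) (by positivity)
      _ = 41093008 * P.B ^ 4 * (m + 2) ^ 7 * P.N ^ 2 := by ring
      _ ≤ _ := by
          have : 0 ≤ P.B ^ 4 * ((m : ℝ) + 2) ^ 7 * P.N ^ 2 := by positivity
          nlinarith
  have hG2 : (G.card : ℝ) ^ 2 ≤ (X + Y) ^ 2 := pow_le_pow_left₀ (by positivity) hcard 2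
  calc P.cc * (G.card : ℝ) ^ 2 ≤ P.cc * (X + Y) ^ 2 := mul_le_mul_of_nonneg_left hG2 hcc.le
    _ ≤ _ := hfin.trans hend

end Sys

end Pool.Agent.D0H73.QLO
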